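import Pool.Agent.Helper64.FC.Degree

set_option autoImplicit false

namespace Pool.Agent.Helper64.FC

noncomputable section

instance (k : ℕ) : ContractibleSpace (Simp k) :=
  (convex_stdSimplex ℝ (Fin (k + 1))).contractibleSpace
    ⟨_, single_mem_stdSimplex ℝ (0 : Fin (k + 1))⟩

/-- A nowhere vanishing function on a contractible space has a continuous angle. -/
theorem exists_angle {A : Type} [TopologicalSpace A] [ContractibleSpace A] (f : C(A, ℂ))
    (hf : ∀ t, f t ≠ 0) : ∃ φ : C(A, ℝ), IsAngle f φ := by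
  obtain ⟨y, ⟨F⟩⟩ := id_nullhomotopic A
  -- `F` is a homotopy from `id` to the constant `y`
  let F' := F.symm
  let g : C(A, {z : ℂ // z ≠ 0}) := ⟨fun a => ⟨f a, hf a⟩, by fun_prop⟩
  let H : C(unitInterval × A, {z : ℂ // z ≠ 0}) := g.comp F'.toContinuousMap
  have hcov := Complex.isCoveringMap_exp
  obtain ⟨w, hw⟩ : ∃ w : ℂ, Complex.exp w = f y := by
    have := Complex.range_exp
    have h2 : f y ∈ Set.range Complex.exp := by rw [this]; exact hf y
    exact h2
  have H0 : ∀ a, H (0, a) = (fun z : ℂ ↦ (⟨_, z.exp_ne_zero⟩ : {z : ℂ // z ≠ 0}))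
      ((ContinuousMap.const A w) a) := by
    intro a
    apply Subtype.ext
    simp only [H, g, ContinuousMap.comp_apply, ContinuousMap.coe_mk, ContinuousMap.const_apply]
    have : F'.toContinuousMap (0, a) = y := by
      simp [F']
    rw [this, hw]
  let L := hcov.liftHomotopy H (ContinuousMap.const A w) H0
  have hL : ∀ t a, Complex.exp (L (t, a)) = (H (t, a) : ℂ) := by
    intro t a
    have := congrFun (hcov.liftHomotopy_lifts H (ContinuousMap.const A w) H0) (t, a)
    exact congrArg Subtype.val this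
  refine ⟨⟨fun a => (L (1, a)).im / (2 * Real.pi), by fun_prop⟩, ?_⟩
  intro a
  have h1 : Complex.exp (L (1, a)) = f a := by
    rw [hL 1 a]
    simp only [H, g, ContinuousMap.comp_apply, ContinuousMap.coe_mk]
    have : F'.toContinuousMap (1, a) = a := by
      simp [F']
    rw [this]
  rw [← h1, Complex.norm_exp]
  simp only [ContinuousMap.coe_mk]
  have h2 : (2 * (Real.pi : ℂ) * Complex.I * (((L (1, a)).im / (2 * Real.pi) : ℝ) : ℂ)) =
      ((L (1, a)).im : ℂ) * Complex.I := by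
    have : (Real.pi : ℂ) ≠ 0 := by exact_mod_cast Real.pi_ne_zero
    push_cast
    field_simp
  rw [h2, Complex.ofReal_exp, ← Complex.exp_add, Complex.re_add_im]

theorem angle_unique {A : Type} [TopologicalSpace A] [PreconnectedSpace A] {f : A → ℂ}
    (hf : ∀ t, f t ≠ 0) {φ ψ : C(A, ℝ)} (hφ : IsAngle f φ) (hψ : IsAngle f ψ) (s t : A) :
    φ s - φ t = ψ s - ψ t := by
  have key : ∀ a, ∃ z : ℤ, φ a - ψ a = z := by
    intro a
    have h1 := hφ a
    have h2 := hψ a
    have hn : (‖f a‖ : ℂ) ≠ 0 := by exact_mod_cast (norm_ne_zero_iff.2 (hf a))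
    have h3 : Complex.exp (2 * Real.pi * Complex.I * φ a) =
        Complex.exp (2 * Real.pi * Complex.I * ψ a) :=
      mul_left_cancel₀ hn (h1.symm.trans h2)
    rw [Complex.exp_eq_exp_iff_exists_int] at h3
    obtain ⟨z, hz⟩ := h3
    refine ⟨z, ?_⟩
    have hpi : (2 * Real.pi * Complex.I : ℂ) ≠ 0 := by
      simp [Real.pi_ne_zero]
    have : ((φ a : ℂ)) = ψ a + z := by
      apply mul_left_cancel₀ hpi
      rw [hz]; ring
    have h4 : φ a = ψ a + z := by exact_mod_cast this
    rw [h4]; ring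
  have hcont : Continuous fun a => φ a - ψ a := by fun_prop
  have hmaps : ∀ a, φ a - ψ a ∈ Set.range ((↑) : ℤ → ℝ) := fun a => by
    obtain ⟨z, hz⟩ := key a
    exact ⟨z, hz.symm⟩
  have hsub : (fun a => φ a - ψ a) s = (fun a => φ a - ψ a) t := by
    have hpre : IsPreconnected (Set.range fun a => φ a - ψ a) := isPreconnected_range hcont
    by_contra hne
    rcases lt_or_gt_of_ne hne with h | h
    · obtain ⟨z1, hz1⟩ := key s
      obtain ⟨z2, hz2⟩ := key t
      simp only at h
      have hmem : (z1 : ℝ) + 1 / 2 ∈ Set.range fun a => φ a - ψ a := by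
        have h12 : (z1 : ℝ) < z2 := by rw [← hz1, ← hz2]; exact h
        have h12' : z1 + 1 ≤ z2 := by exact_mod_cast h12
        have h12'' : (z1 : ℝ) + 1 ≤ z2 := by exact_mod_cast h12'
        exact hpre.Icc_subset ⟨s, rfl⟩ ⟨t, rfl⟩ ⟨by simp only [hz1]; linarith,
          by simp only [hz2]; linarith⟩
      obtain ⟨a, ha⟩ := hmem
      obtain ⟨z, hz⟩ := key a
      simp only [hz] at ha
      have : (z : ℝ) * 2 = z1 * 2 + 1 := by linarith
      have h' : z * 2 = z1 * 2 + 1 := by exact_mod_cast this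
      omega
    · obtain ⟨z1, hz1⟩ := key s
      obtain ⟨z2, hz2⟩ := key t
      simp only at h
      have hmem : (z2 : ℝ) + 1 / 2 ∈ Set.range fun a => φ a - ψ a := by
        have h12 : (z2 : ℝ) < z1 := by rw [← hz1, ← hz2]; exact h
        have h12' : z2 + 1 ≤ z1 := by exact_mod_cast h12
        have h12'' : (z2 : ℝ) + 1 ≤ z1 := by exact_mod_cast h12'
        exact hpre.Icc_subset ⟨t, rfl⟩ ⟨s, rfl⟩ ⟨by simp only [hz2]; linarith,
          by simp only [hz1]; linarith⟩
      obtain ⟨a, ha⟩ := hmem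
      obtain ⟨z, hz⟩ := key a
      simp only [hz] at ha
      have : (z : ℝ) * 2 = z2 * 2 + 1 := by linarith
      have h' : z * 2 = z2 * 2 + 1 := by exact_mod_cast this
      omega
  simp only at hsub
  linarith

theorem winding_eq {f : C(Simp 1, ℂ)} (hf : ∀ t, f t ≠ 0) {φ : C(Simp 1, ℝ)}
    (hφ : IsAngle f φ) :
    winding f = φ (stdSimplex.vertex 1) - φ (stdSimplex.vertex 0) := by
  have h : ∃ φ : C(Simp 1, ℝ), IsAngle f φ := ⟨φ, hφ⟩
  rw [winding, dif_pos h]
  exact angle_unique hf h.choose_spec hφ _ _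

theorem simpMap_vertex {k l : ℕ} (u : Fin (k + 1) → Fin (l + 1)) (i : Fin (k + 1)) :
    simpMap u (stdSimplex.vertex i) = stdSimplex.vertex (u i) :=
  stdSimplex.map_vertex u i

theorem isAngle_comp {A B : Type} [TopologicalSpace A] [TopologicalSpace B] {f : C(A, ℂ)}
    {φ : C(A, ℝ)} (h : IsAngle f φ) (g : C(B, A)) : IsAngle (f.comp g) (φ.comp g) :=
  fun t => h (g t)

theorem winding_cocycle {f : C(Simp 2, ℂ)} (hf : ∀ t, f t ≠ 0) :
    ∑ i : Fin 3, (-1 : ℝ) ^ (i : ℕ) * winding (f.comp (simpMap i.succAbove)) = 0 := by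
  obtain ⟨φ, hφ⟩ := exists_angle f hf
  have h : ∀ i : Fin 3, winding (f.comp (simpMap i.succAbove)) =
      φ (stdSimplex.vertex (i.succAbove 1)) - φ (stdSimplex.vertex (i.succAbove 0)) := by
    intro i
    rw [winding_eq (f := f.comp (simpMap i.succAbove)) (fun t => hf _) (isAngle_comp hφ _)]
    rw [ContinuousMap.comp_apply, ContinuousMap.comp_apply]
    rw [simpMap_vertex, simpMap_vertex]
  rw [Fin.sum_univ_three, h, h, h]
  have e1 : (0 : Fin 3).succAbove (1 : Fin 2) = 2 := rfl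
  have e2 : (0 : Fin 3).succAbove (0 : Fin 2) = 1 := rfl
  have e3 : (1 : Fin 3).succAbove (1 : Fin 2) = 2 := rfl
  have e4 : (1 : Fin 3).succAbove (0 : Fin 2) = 0 := rfl
  have e5 : (2 : Fin 3).succAbove (1 : Fin 2) = 1 := rfl
  have e6 : (2 : Fin 3).succAbove (0 : Fin 2) = 0 := rfl
  rw [e1, e2, e3, e4, e5, e6]
  norm_num

theorem diffMap_ne {n : ℕ} {a b : Fin n} (hab : a ≠ b) (x : Conf n) : diffMap n a b x ≠ 0 := by
  intro h
  exact x.2.2 a b hab (sub_eq_zero.1 h).symm

/-- `ω_ab` is a cocycle. -/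
theorem omegaAB_cocycle {n : ℕ} {a b : Fin n} (hab : a ≠ b) : omegaAB n a b ∈ cocycles 1 (Conf n) := by
  rw [LinearMap.mem_ker]
  funext σ
  exact winding_cocycle (f := (diffMap n a b).comp σ) fun t => diffMap_ne hab _

end

end Pool.Agent.Helper64.FC
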