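import Mathlib

/-!
# Tori of hard disk configurations: nested rotations

Disks of radius `1` in a disk of radius `ρ`.
-/

set_option autoImplicit false

namespace Pool.Agent.Helper64.FC

noncomputable section

open Complex

/-- The point of the unit circle with angle `x` (in full turns). -/
def turn (x : ℝ) : ℂ := exp (2 * Real.pi * I * x)

theorem norm_turn (x : ℝ) : ‖turn x‖ = 1 := by
  have : (2 * Real.pi * I * x : ℂ) = ((2 * Real.pi * x : ℝ) : ℂ) * I := by push_cast; ring
  rw [turn, this, Complex.norm_exp_ofReal_mul_I]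

theorem turn_add_int (x : ℝ) (z : ℤ) : turn (x + z) = turn x := by
  have : (2 * Real.pi * I * ((x + z : ℝ) : ℂ) : ℂ) =
      2 * Real.pi * I * x + z * (2 * Real.pi * I) := by push_cast; ring
  rw [turn, this, Complex.exp_add, Complex.exp_int_mul_two_pi_mul_I, mul_one, turn]

theorem conj_turn_mul (x : ℝ) : (starRingEnd ℂ) (turn x) * turn x = 1 := by
  rw [mul_comm, Complex.mul_conj, Complex.normSq_eq_norm_sq, norm_turn]
  simp

theorem continuous_turn : Continuous turn :=
  Complex.continuous_exp.comp (continuous_const.mul Complex.continuous_ofReal)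

/-- A torus of configurations of disks of radius `1` in the disk of radius `ρ`: the disks are
arranged in clusters `i` of `m i` disks, and the direction from the disk `(i, l)` to the disk
`(i, l + 1)` is given, up to less than a quarter turn, by the coordinate `(i, l + 1)` of the
torus. -/
structure IsReal {ι : Type} (m : ι → ℕ) (ρ : ℝ) (X : (ι × ℕ → ℝ) → (ι × ℕ → ℂ)) : Prop where
  cont : Continuous X
  per : ∀ θ θ' : ι × ℕ → ℝ, (∀ p, ∃ z : ℤ, θ' p = θ p + z) → X θ' = X θ
  bound : ∀ θ p, p.2 < m p.1 → ‖X θ p‖ ≤ ρ - 1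
  sep : ∀ θ p q, p.2 < m p.1 → q.2 < m q.1 → p ≠ q → 2 ≤ ‖X θ p - X θ q‖
  dir : ∀ θ i l, l + 1 < m i →
    0 < ((starRingEnd ℂ) (turn (θ (i, l + 1))) * (X θ (i, l + 1) - X θ (i, l))).re

/-- The sizes of the clusters: a distinguished one of size `a` and the others. -/
def sz {κ : Type} (a : ℕ) (m : κ → ℕ) (o : Option κ) : ℕ := o.elim a m

/-- There is a torus of configurations in the disk of radius `ρ` with a distinguished cluster of
size `a`, all other clusters of size at least `2`, and sum of squares of sizes `s`. -/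
def Rz (ρ : ℝ) (a s : ℕ) : Prop :=
  ∃ (κ : Type) (_ : Fintype κ) (m : κ → ℕ), (∀ i, 2 ≤ m i) ∧ 1 ≤ a ∧
    s = a ^ 2 + ∑ i, m i ^ 2 ∧ ∃ X, IsReal (sz a m) ρ X

theorem Rz.mono {ρ ρ' : ℝ} {a s : ℕ} (h : Rz ρ a s) (hρ : ρ ≤ ρ') : Rz ρ' a s := by
  obtain ⟨κ, hκ, m, h1, h2, h3, X, hX⟩ := h
  exact ⟨κ, hκ, m, h1, h2, h3, X, hX.cont, hX.per,
    fun θ p hp => (hX.bound θ p hp).trans (by linarith), hX.sep, hX.dir⟩

theorem Rz.one : Rz 1 1 1 := by
  refine ⟨Empty, inferInstance, fun _ => 2, fun i => i.elim, le_refl _, by simp,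
    fun _ _ => 0, ?_⟩
  refine ⟨continuous_const, fun _ _ _ => rfl, fun θ p _ => by simp, ?_, ?_⟩
  · rintro θ ⟨i, l⟩ ⟨j, k⟩ hp hq hne
    exfalso
    cases i with
    | some x => exact x.elim
    | none =>
      cases j with
      | some x => exact x.elim
      | none =>
        simp only [sz, Option.elim] at hp hq
        apply hne
        rw [Nat.lt_one_iff.1 hp, Nat.lt_one_iff.1 hq]
  · intro θ i l h
    cases i with
    | some x => exact x.elim
    | none =>
      simp only [sz, Option.elim] at h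
      omega

section node

variable {J : Type} [Fintype J] [DecidableEq J] {j0 j1 : J} {κ : J → Type}
  (a : J → ℕ) (m : ∀ j, κ j → ℕ)

/-- The other clusters of the composed configuration. -/
def K' (κ : J → Type) (j0 j1 : J) : Type :=
  {x : Σ j, Option (κ j) // x ≠ ⟨j0, none⟩ ∧ x ≠ ⟨j1, none⟩}

def m' (x : K' κ j0 j1) : ℕ := sz (a x.1.1) (m x.1.1) x.1.2

def loc (j0 j1 : J) (κ : J → Type) : Option (K' κ j0 j1) × ℕ → Σ j, Option (κ j) × ℕ
  | (none, l) => if l < a j0 then ⟨j0, (none, l)⟩ else ⟨j1, (none, l - a j0)⟩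
  | (some x, l) => ⟨x.1.1, (x.1.2, l)⟩

omit [Fintype J] [DecidableEq J] in
theorem loc_lt {l : ℕ} (h : l < a j0) : loc a j0 j1 κ (none, l) = ⟨j0, (none, l)⟩ := by
  simp only [loc, if_pos h]

omit [Fintype J] [DecidableEq J] in
theorem loc_ge {l : ℕ} (h : ¬ l < a j0) :
    loc a j0 j1 κ (none, l) = ⟨j1, (none, l - a j0)⟩ := by
  simp only [loc, if_neg h]

open Classical in
def glob (j0 j1 : J) (κ : J → Type) (j : J) (q : Option (κ j) × ℕ) :
    Option (K' κ j0 j1) × ℕ :=
  if h : (⟨j, q.1⟩ : Σ j, Option (κ j)) = ⟨j0, none⟩ then (none, q.2) else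
    if h' : (⟨j, q.1⟩ : Σ j, Option (κ j)) = ⟨j1, none⟩ then (none, a j0 + q.2) else
      (some ⟨⟨j, q.1⟩, h, h'⟩, q.2)

theorem loc_valid (p : Option (K' κ j0 j1) × ℕ) (hp : p.2 < sz (a j0 + a j1) (m' a m) p.1) :
    (loc a j0 j1 κ p).2.2 < sz (a (loc a j0 j1 κ p).1) (m (loc a j0 j1 κ p).1)
      (loc a j0 j1 κ p).2.1 := by
  obtain ⟨i, l⟩ := p
  cases i with
  | none =>
    simp only [sz, Option.elim] at hp
    by_cases h : l < a j0
    · rw [loc_lt a h]; exact h
    · rw [loc_ge a h]
      change l - a j0 < a j1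
      omega
  | some x => exact hp

theorem loc_inj (hj : j0 ≠ j1) (p q : Option (K' κ j0 j1) × ℕ)
    (h : loc a j0 j1 κ p = loc a j0 j1 κ q) : p = q := by
  obtain ⟨i, l⟩ := p
  obtain ⟨i', l'⟩ := q
  cases i with
  | none =>
    cases i' with
    | none =>
      by_cases h1 : l < a j0
      · by_cases h2 : l' < a j0
        · simp only [loc, if_pos h1, if_pos h2, Sigma.mk.injEq, heq_eq_eq, Prod.mk.injEq,
            true_and] at h
          rw [h]
        · simp only [loc, if_pos h1, if_neg h2, Sigma.mk.injEq] at h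
          exact absurd h.1 hj
      · by_cases h2 : l' < a j0
        · simp only [loc, if_neg h1, if_pos h2, Sigma.mk.injEq] at h
          exact absurd h.1.symm hj
        · simp only [loc, if_neg h1, if_neg h2, Sigma.mk.injEq, heq_eq_eq, Prod.mk.injEq,
            true_and] at h
          have : l = l' := by omega
          rw [this]
    | some y =>
      exfalso
      obtain ⟨⟨j, k⟩, hy1, hy2⟩ := y
      by_cases h1 : l < a j0
      · simp only [loc, if_pos h1] at h
        apply hy1
        have e1 := congrArg (fun z : (Σ j, Option (κ j) × ℕ) => (⟨z.1, z.2.1⟩ : Σ j, Option (κ j))) h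
        exact e1.symm
      · simp only [loc, if_neg h1] at h
        apply hy2
        have e1 := congrArg (fun z : (Σ j, Option (κ j) × ℕ) => (⟨z.1, z.2.1⟩ : Σ j, Option (κ j))) h
        exact e1.symm
  | some x =>
    cases i' with
    | none =>
      exfalso
      obtain ⟨⟨j, k⟩, hy1, hy2⟩ := x
      by_cases h1 : l' < a j0
      · simp only [loc, if_pos h1] at h
        apply hy1
        exact congrArg (fun z : (Σ j, Option (κ j) × ℕ) => (⟨z.1, z.2.1⟩ : Σ j, Option (κ j))) h
      · simp only [loc, if_neg h1] at h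
        apply hy2
        exact congrArg (fun z : (Σ j, Option (κ j) × ℕ) => (⟨z.1, z.2.1⟩ : Σ j, Option (κ j))) h
    | some y =>
      have e1 : x.1 = y.1 :=
        congrArg (fun z : (Σ j, Option (κ j) × ℕ) => (⟨z.1, z.2.1⟩ : Σ j, Option (κ j))) h
      have e2 : l = l' := congrArg (fun z : (Σ j, Option (κ j) × ℕ) => z.2.2) h
      rw [Subtype.ext e1, e2]

/-- The position of a point given by its disk and its index in the disk. -/
def cval (j0 j1 : J) (c : J → ℂ) (X : ∀ j, (Option (κ j) × ℕ → ℝ) → (Option (κ j) × ℕ → ℂ))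
    (θ : Option (K' κ j0 j1) × ℕ → ℝ) (u : Σ j, Option (κ j) × ℕ) : ℂ :=
  turn (θ (none, a j0)) * c u.1 + X u.1 (fun q => θ (glob a j0 j1 κ u.1 q)) u.2

/-- The composed configuration. -/
def compose (j0 j1 : J) (c : J → ℂ) (X : ∀ j, (Option (κ j) × ℕ → ℝ) → (Option (κ j) × ℕ → ℂ))
    (θ : Option (K' κ j0 j1) × ℕ → ℝ) (p : Option (K' κ j0 j1) × ℕ) : ℂ :=
  cval a j0 j1 c X θ (loc a j0 j1 κ p)

theorem isReal_compose (hj : j0 ≠ j1) {c : J → ℂ} {ρ : J → ℝ} {P D : ℝ}
    {X : ∀ j, (Option (κ j) × ℕ → ℝ) → (Option (κ j) × ℕ → ℂ)}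
    (hX : ∀ j, IsReal (sz (a j) (m j)) (ρ j) (X j))
    (ha0 : 1 ≤ a j0) (ha1 : 1 ≤ a j1)
    (hdisj : ∀ i j, i ≠ j → ρ i + ρ j ≤ ‖c i - c j‖) (hin : ∀ j, ‖c j‖ + ρ j ≤ P)
    (hD0 : 0 ≤ D) (hD : c j1 - c j0 = D) :
    IsReal (sz (a j0 + a j1) (m' a m)) P (compose a j0 j1 c X) := by
  refine ⟨?_, ?_, ?_, ?_, ?_⟩
  · refine continuous_pi fun p => ?_
    refine Continuous.add ?_ ?_
    · exact (continuous_turn.comp (continuous_apply _)).mul continuous_const
    · have h1 : Continuous fun θ : Option (K' κ j0 j1) × ℕ → ℝ =>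
          fun q => θ (glob a j0 j1 κ (loc a j0 j1 κ p).1 q) :=
        continuous_pi fun q => continuous_apply _
      exact (continuous_apply _).comp ((hX _).cont.comp h1)
  · intro θ θ' h
    funext p
    unfold compose cval
    congr 1
    · obtain ⟨z, hz⟩ := h (none, a j0)
      rw [hz, turn_add_int]
    · rw [(hX (loc a j0 j1 κ p).1).per
        (fun q => θ (glob a j0 j1 κ (loc a j0 j1 κ p).1 q))
        (fun q => θ' (glob a j0 j1 κ (loc a j0 j1 κ p).1 q)) fun q => h _]
  · intro θ p hp
    have h1 := (hX _).bound (fun q => θ (glob a j0 j1 κ (loc a j0 j1 κ p).1 q)) _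
      (loc_valid a m p hp)
    have h2 := hin (loc a j0 j1 κ p).1
    unfold compose cval
    refine (norm_add_le _ _).trans ?_
    rw [norm_mul, norm_turn, one_mul]
    linarith
  · intro θ p q hp hq hne
    have hv1 := loc_valid a m p hp
    have hv2 := loc_valid a m q hq
    have hne' : loc a j0 j1 κ p ≠ loc a j0 j1 κ q := fun e => hne (loc_inj a hj p q e)
    unfold compose cval
    revert hv1 hv2 hne'
    generalize loc a j0 j1 κ p = u
    generalize loc a j0 j1 κ q = v
    intro hv1 hv2 hne'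
    obtain ⟨j, u⟩ := u
    obtain ⟨k, v⟩ := v
    simp only at hv1 hv2 ⊢
    by_cases hjk : j = k
    · subst hjk
      have huv : u ≠ v := fun e => hne' (by rw [e])
      rw [add_sub_add_left_eq_sub]
      exact (hX j).sep _ u v hv1 hv2 huv
    · have b1 := (hX j).bound (fun q => θ (glob a j0 j1 κ j q)) u hv1
      have b2 := (hX k).bound (fun q => θ (glob a j0 j1 κ k q)) v hv2
      have b3 := hdisj j k hjk
      set A := X j (fun q => θ (glob a j0 j1 κ j q)) u
      set B := X k (fun q => θ (glob a j0 j1 κ k q)) v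
      have e1 : turn (θ (none, a j0)) * c j + A - (turn (θ (none, a j0)) * c k + B) =
          turn (θ (none, a j0)) * (c j - c k) - (B - A) := by ring
      rw [e1]
      have e2 := norm_sub_norm_le (turn (θ (none, a j0)) * (c j - c k)) (B - A)
      rw [norm_mul, norm_turn, one_mul] at e2
      have e3 := norm_sub_le B A
      linarith
  · intro θ i l hl
    unfold compose
    cases i with
    | some x =>
      simp only [loc, cval]
      rw [add_sub_add_left_eq_sub]
      have h1 := (hX x.1.1).dir (fun q => θ (glob a j0 j1 κ x.1.1 q)) x.1.2 l hl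
      have h2 : glob a j0 j1 κ x.1.1 (x.1.2, l + 1) = (some x, l + 1) := by
        unfold glob
        rw [dif_neg x.2.1, dif_neg x.2.2]
        rfl
      rw [h2] at h1
      exact h1
    | none =>
      simp only [sz, Option.elim] at hl
      rcases lt_trichotomy (l + 1) (a j0) with h | h | h
      · have h' : l < a j0 := by omega
        rw [loc_lt a h, loc_lt a h']
        simp only [cval]
        rw [add_sub_add_left_eq_sub]
        have h1 := (hX j0).dir (fun q => θ (glob a j0 j1 κ j0 q)) none l (by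
          simp only [sz, Option.elim]; exact h)
        have h2 : glob a j0 j1 κ j0 (none, l + 1) = (none, l + 1) := by
          unfold glob
          rw [dif_pos rfl]
        rw [h2] at h1
        exact h1
      · have h' : l < a j0 := by omega
        have h'' : ¬ (l + 1 < a j0) := by omega
        have h3 : l + 1 - a j0 = 0 := by omega
        rw [loc_ge a h'', loc_lt a h', h3]
        simp only [cval]
        have b1 := (hX j0).bound (fun q => θ (glob a j0 j1 κ j0 q)) (none, l) (by
          simp only [sz, Option.elim]; exact h')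
        have b2 := (hX j1).bound (fun q => θ (glob a j0 j1 κ j1 q)) (none, 0) (by
          simp only [sz, Option.elim]; omega)
        set A := X j0 (fun q => θ (glob a j0 j1 κ j0 q)) (none, l)
        set B := X j1 (fun q => θ (glob a j0 j1 κ j1 q)) (none, 0)
        rw [h]
        set w := turn (θ (none, a j0)) with hw
        have e1 : (starRingEnd ℂ) w * (w * c j1 + B - (w * c j0 + A)) =
            ((starRingEnd ℂ) w * w) * (c j1 - c j0) + (starRingEnd ℂ) w * (B - A) := by ring
        rw [e1, hw, conj_turn_mul, one_mul, hD, Complex.add_re, Complex.ofReal_re]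
        have e2 : |((starRingEnd ℂ) (turn (θ (none, a j0))) * (B - A)).re| ≤ ‖B‖ + ‖A‖ := by
          refine (Complex.abs_re_le_norm _).trans ?_
          rw [norm_mul, RCLike.norm_conj, norm_turn, one_mul]
          exact norm_sub_le _ _
        have e3 := (abs_le.1 e2).1
        have e4 := hdisj j1 j0 hj.symm
        rw [hD, Complex.norm_real, Real.norm_eq_abs, abs_of_nonneg hD0] at e4
        linarith
      · have h' : ¬ (l < a j0) := by omega
        have h'' : ¬ (l + 1 < a j0) := by omega
        rw [loc_ge a h'', loc_ge a h']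
        simp only [cval]
        rw [add_sub_add_left_eq_sub]
        have h3 : l + 1 - a j0 = (l - a j0) + 1 := by omega
        have h1 := (hX j1).dir (fun q => θ (glob a j0 j1 κ j1 q)) none (l - a j0) (by
          simp only [sz, Option.elim]; omega)
        have h2 : glob a j0 j1 κ j1 (none, l - a j0 + 1) = (none, l + 1) := by
          unfold glob
          rw [dif_neg (by simp only [Sigma.mk.injEq]; exact fun e => hj e.1.symm), dif_pos rfl]
          congr 1
          simp only
          omega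
        rw [h2] at h1
        rw [h3]
        exact h1

end node

/-- The composition of disks. -/
theorem Rz.node {J : Type} [Fintype J] [DecidableEq J] {j0 j1 : J} (hj : j0 ≠ j1)
    {c : J → ℂ} {ρ : J → ℝ} {P D : ℝ} {a s : J → ℕ} (hR : ∀ j, Rz (ρ j) (a j) (s j))
    (ha : ∀ j, j ≠ j0 → j ≠ j1 → 2 ≤ a j)
    (hdisj : ∀ i j, i ≠ j → ρ i + ρ j ≤ ‖c i - c j‖) (hin : ∀ j, ‖c j‖ + ρ j ≤ P)
    (hD0 : 0 ≤ D) (hD : c j1 - c j0 = D) :
    Rz P (a j0 + a j1) (∑ j, s j + 2 * a j0 * a j1) := by
  classical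
  choose κ hκ m h1 h2 h3 X hX using hR
  have : Fintype (K' κ j0 j1) := by unfold K'; infer_instance
  refine ⟨K' κ j0 j1, inferInstance, m' a m, ?_, by have := h2 j0; omega, ?_,
    compose a j0 j1 c X, isReal_compose a m hj hX (h2 j0) (h2 j1) hdisj hin hD0 hD⟩
  · rintro ⟨⟨j, k⟩, hx1, hx2⟩
    cases k with
    | none =>
      refine ha j ?_ ?_
      · rintro rfl; exact hx1 rfl
      · rintro rfl; exact hx2 rfl
    | some k => exact h1 j k
  · let F : (Σ j, Option (κ j)) → ℕ := fun x => sz (a x.1) (m x.1) x.2 ^ 2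
    have e1 : ∑ j, s j = ∑ x, F x := by
      rw [Fintype.sum_sigma]
      refine Finset.sum_congr rfl fun j _ => ?_
      rw [h3 j, Fintype.sum_option]
      rfl
    have e2 : ∑ x : K' κ j0 j1, m' a m x ^ 2 =
        ∑ x with (x ≠ ⟨j0, none⟩ ∧ x ≠ ⟨j1, none⟩), F x := by
      rw [Finset.sum_subtype (p := fun x : (Σ j, Option (κ j)) =>
        x ≠ ⟨j0, none⟩ ∧ x ≠ ⟨j1, none⟩) _ (by simp)]
      rfl
    have hne : (⟨j0, none⟩ : Σ j, Option (κ j)) ≠ ⟨j1, none⟩ := by
      simp only [ne_eq, Sigma.mk.injEq]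
      exact fun e => hj e.1
    have e3 : ∑ x, F x = F ⟨j0, none⟩ + (F ⟨j1, none⟩ +
        ∑ x with (x ≠ ⟨j0, none⟩ ∧ x ≠ ⟨j1, none⟩), F x) := by
      have : (Finset.univ : Finset (Σ j, Option (κ j))) = insert ⟨j0, none⟩ (insert ⟨j1, none⟩
          (Finset.univ.filter fun x => x ≠ ⟨j0, none⟩ ∧ x ≠ ⟨j1, none⟩)) := by
        ext x
        simp only [Finset.mem_univ, Finset.mem_insert, Finset.mem_filter, true_and, true_iff]
        tauto
      conv_lhs => rw [this]
      rw [Finset.sum_insert, Finset.sum_insert]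
      · simp
      · simp [hne]
    have e4 : F ⟨j0, none⟩ = a j0 ^ 2 := rfl
    have e5 : F ⟨j1, none⟩ = a j1 ^ 2 := rfl
    rw [e1, e3, e2, e4, e5]
    ring

end

end Pool.Agent.Helper64.FC
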