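import Pool.Agent.Helper64.FC.Bridge
import Pool.Agent.Helper64.FC.Realize

/-!
# The forest of paths with given sizes
-/

set_option autoImplicit false

namespace Pool.Agent.Helper64.FC

noncomputable section

/-- A graph on a linearly ordered set in which every vertex has at most one smaller neighbour is a
forest. -/
theorem acyclic_of_unique {V : Type} [LinearOrder V] (G : SimpleGraph V)
    (h : ∀ a a' b, a < b → a' < b → G.Adj a b → G.Adj a' b → a = a') : G.IsAcyclic := by
  intro v c hc
  classical
  -- the largest vertex of the cycle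
  obtain ⟨w, hw, hmax⟩ := Finset.exists_max_image c.support.toFinset id
    ⟨v, by simp⟩
  rw [List.mem_toFinset] at hw
  have hmax' : ∀ x ∈ c.support, x ≤ w := fun x hx => hmax x (List.mem_toFinset.2 hx)
  have hc' : (c.rotate w hw).IsCycle := hc.rotate hw
  have hmem : ∀ x, x ∈ (c.rotate w hw).support → x ≤ w := by
    intro x hx
    rw [SimpleGraph.Walk.mem_support_rotate_iff] at hx
    exact hmax' x hx
  have h1 : G.Adj w (c.rotate w hw).snd := SimpleGraph.Walk.adj_snd hc'.not_nil
  have h2 : G.Adj (c.rotate w hw).penultimate w := SimpleGraph.Walk.adj_penultimate hc'.not_nil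
  have h3 : (c.rotate w hw).snd ≤ w := hmem _ (SimpleGraph.Walk.getVert_mem_support _ _)
  have h4 : (c.rotate w hw).penultimate ≤ w := hmem _ (SimpleGraph.Walk.getVert_mem_support _ _)
  exact hc'.snd_ne_penultimate
    (h _ _ _ (lt_of_le_of_ne h3 h1.ne.symm) (lt_of_le_of_ne h4 h2.ne) h1.symm h2)

section block

variable {K : ℕ} (M : Fin K → ℕ)

/-- The label of the `j`-th vertex of the `i`-th block. -/
def lab (i : Fin K) (j : Fin (M i)) : Fin (∑ i, M i) := finSigmaFinEquiv ⟨i, j⟩

/-- The block of a label. -/
def blk (x : Fin (∑ i, M i)) : Fin K := (finSigmaFinEquiv.symm x).1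

/-- The position of a label in its block. -/
def pos (x : Fin (∑ i, M i)) : Fin (M (blk M x)) := (finSigmaFinEquiv.symm x).2

theorem lab_blk_pos (x : Fin (∑ i, M i)) : lab M (blk M x) (pos M x) = x :=
  Equiv.apply_symm_apply finSigmaFinEquiv x

theorem blk_lab (i : Fin K) (j : Fin (M i)) : blk M (lab M i j) = i := by
  rw [blk, lab, Equiv.symm_apply_apply]

/-- The first label of a block. -/
def first (i : Fin K) : ℕ := ∑ t : Fin (i : ℕ), M (Fin.castLE i.2.le t)

theorem lab_val (i : Fin K) (j : Fin (M i)) : (lab M i j : ℕ) = first M i + j := by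
  rw [lab, finSigmaFinEquiv_apply, first]

theorem val_eq (x : Fin (∑ i, M i)) : (x : ℕ) = first M (blk M x) + pos M x := by
  conv_lhs => rw [← lab_blk_pos M x]
  rw [lab_val]

theorem exists_lab (x : Fin (∑ i, M i)) (i : Fin K) (h : blk M x = i) :
    ∃ j : Fin (M i), x = lab M i j := by
  subst h
  exact ⟨pos M x, (lab_blk_pos M x).symm⟩

/-- The graph whose components are paths on the blocks. -/
def blockGraph : SimpleGraph (Fin (∑ i, M i)) where
  Adj x y := blk M x = blk M y ∧ ((x : ℕ) + 1 = y ∨ (y : ℕ) + 1 = x)
  symm := ⟨fun x y h => ⟨h.1.symm, h.2.symm⟩⟩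
  loopless := ⟨fun x h => by
    rcases h.2 with h | h <;> omega⟩

theorem blockGraph_unique (a a' b : Fin (∑ i, M i)) (h1 : a < b) (h2 : a' < b)
    (h3 : (blockGraph M).Adj a b) (h4 : (blockGraph M).Adj a' b) : a = a' := by
  have h5 := h3.2
  have h6 := h4.2
  rw [Fin.lt_def] at h1 h2
  apply Fin.ext
  omega

/-- The forest whose components are paths on the blocks. -/
def blockForest : OrderedForest (∑ i, M i) where
  graph := blockGraph M
  acyclic := acyclic_of_unique _ (blockGraph_unique M)
  unique := blockGraph_unique M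

theorem parent_block {b : Fin (∑ i, M i)} (hb : b ∈ (blockForest M).children) :
    ∃ (i : Fin K) (l : ℕ) (h : l + 1 < M i), b = lab M i ⟨l + 1, h⟩ ∧
      (blockForest M).parent b = lab M i ⟨l, by omega⟩ := by
  obtain ⟨h1, h2⟩ := (blockForest M).parent_spec hb
  obtain ⟨h3, h4⟩ : blk M ((blockForest M).parent b) = blk M b ∧
    (((blockForest M).parent b : ℕ) + 1 = b ∨ (b : ℕ) + 1 = (blockForest M).parent b) := h2
  rw [Fin.lt_def] at h1
  obtain ⟨j, hj⟩ := exists_lab M b _ rfl
  obtain ⟨j', hj'⟩ := exists_lab M _ _ h3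
  have h5 := lab_val M _ j
  have h6 := lab_val M _ j'
  rw [← hj] at h5
  rw [← hj'] at h6
  have h7 : (j : ℕ) = j' + 1 := by omega
  refine ⟨blk M b, j', ?_, ?_, ?_⟩
  · have := j.2
    omega
  · have h8 : j = ⟨(j' : ℕ) + 1, by have := j.2; omega⟩ := Fin.ext h7
    exact hj.trans (congrArg _ h8)
  · exact hj'

theorem reach_blk {x y : Fin (∑ i, M i)} (h : (blockGraph M).Reachable x y) :
    blk M x = blk M y := by
  obtain ⟨w⟩ := h
  induction w with
  | nil => rfl
  | cons h _ ih => exact h.1.trans ih

theorem reach_lab (i : Fin K) : ∀ (l : ℕ) (h : l < M i),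
    (blockGraph M).Reachable (lab M i ⟨0, by omega⟩) (lab M i ⟨l, h⟩) := by
  intro l
  induction l with
  | zero => intro h; exact SimpleGraph.Reachable.refl _
  | succ l ih =>
    intro h
    refine (ih (by omega)).trans (SimpleGraph.Adj.reachable ?_)
    refine ⟨by rw [blk_lab, blk_lab], Or.inl ?_⟩
    rw [lab_val, lab_val]
    simp only
    omega

theorem shape_block (hM : ∀ i, 2 ≤ M i) :
    (blockForest M).shape = Finset.univ.val.map M := by
  classical
  have h0 : ∀ i, 0 < M i := fun i => by have := hM i; omega
  let comp : Fin K → (blockGraph M).ConnectedComponent := fun i =>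
    (blockGraph M).connectedComponentMk (lab M i ⟨0, h0 i⟩)
  have hinj : Function.Injective comp := by
    intro i j hij
    have := reach_blk M (SimpleGraph.ConnectedComponent.exact hij)
    rwa [blk_lab, blk_lab] at this
  have hmem : ∀ x, (blockGraph M).connectedComponentMk x = comp (blk M x) := by
    intro x
    apply SimpleGraph.ConnectedComponent.sound
    obtain ⟨j, hj⟩ := exists_lab M x _ rfl
    have := (reach_lab M (blk M x) j j.2).symm
    rw [← hj] at this
    exact this
  have hsurj : Function.Surjective comp := by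
    intro c
    induction c using SimpleGraph.ConnectedComponent.ind with
    | _ x => exact ⟨blk M x, (hmem x).symm⟩
  have hsupp : ∀ i, (comp i).supp.ncard = M i := by
    intro i
    have : (comp i).supp = Set.range (lab M i) := by
      ext x
      rw [SimpleGraph.ConnectedComponent.mem_supp_iff, hmem]
      constructor
      · intro h
        obtain ⟨j, hj⟩ := exists_lab M x i (hinj h)
        exact ⟨j, hj.symm⟩
      · rintro ⟨j, rfl⟩
        rw [blk_lab]
    rw [this, ← Set.image_univ, Set.ncard_image_of_injective, Set.ncard_univ, Nat.card_eq_fintype_card,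
      Fintype.card_fin]
    intro j j' h
    have h1 := lab_val M i j
    have h2 := lab_val M i j'
    rw [h] at h1
    exact Fin.ext (by omega)
  have huniv : (Set.toFinite (Set.univ : Set (blockGraph M).ConnectedComponent)).toFinset =
      Finset.univ.map ⟨comp, hinj⟩ := by
    ext c
    simp only [Set.Finite.mem_toFinset, Set.mem_univ, Finset.mem_map, Finset.mem_univ, true_and,
      Function.Embedding.coeFn_mk, true_iff]
    exact hsurj c
  change ((Set.toFinite (Set.univ : Set (blockGraph M).ConnectedComponent)).toFinset.val.map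
    fun c => c.supp.ncard).filter (2 ≤ ·) = _
  rw [huniv, Finset.map_val, Multiset.map_map]
  have : ((fun c : (blockGraph M).ConnectedComponent => c.supp.ncard) ∘
      (⟨comp, hinj⟩ : Fin K ↪ (blockGraph M).ConnectedComponent)) = M := by
    funext i
    exact hsupp i
  rw [this, Multiset.filter_eq_self]
  intro x hx
  obtain ⟨i, _, rfl⟩ := Multiset.mem_map.1 hx
  exact hM i

end block

end

end Pool.Agent.Helper64.FC
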