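import Pool.Agent.Helper64.FC.Cup

/-!
# The cohomology classes of ordered forests and the radius `r_max`
-/

set_option autoImplicit false

namespace Pool.Agent.Helper64.FC

noncomputable section

namespace OrderedForest

variable {n : ℕ} (G : OrderedForest n)

theorem parent_spec {b : Fin n} (hb : b ∈ G.children) :
    G.parent b < b ∧ G.graph.Adj (G.parent b) b := by
  classical
  have h : ∃ a, a < b ∧ G.graph.Adj a b := by
    simpa [children] using hb
  rw [parent, dif_pos h]
  exact h.choose_spec

theorem top_mem (i : Fin G.children.card) : G.top i ∈ G.children :=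
  Finset.orderEmbOfFin_mem _ _ _

theorem omegaCochain_cocycle : G.omegaCochain ∈ cocycles G.children.card (Conf n) :=
  cupList_cocycle _ _ fun i => omegaAB_cocycle (G.parent_spec (G.top_mem i)).1.ne

theorem omega_closed : d (Conf n) (single G.children.card G.omegaCochain) = 0 :=
  d_single G.omegaCochain_cocycle

/-- The class `ω_G` in `H^*(Conf_n; ℝ)` of an ordered forest `G`. -/
def omega : Hstar (Conf n) := cls (single G.children.card G.omegaCochain) G.omega_closed

end OrderedForest

/-- `H^m(Conf_|m|)` for a multiset `m`, where `|m|` is the sum of `m`: the span of the classes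
`ω_G` over the ordered forests `G` of shape `m`. -/
def forestClasses (m : Multiset ℕ) : Submodule ℝ (Hstar (Conf m.sum)) :=
  Submodule.span ℝ {c | ∃ G : OrderedForest m.sum, G.shape = m ∧ c = G.omega}

/-- `r_max(m)`: the supremum of the radii `r > 0` for which the restriction
`H^m(Conf_|m|) → H^*(Conf_{|m|,r})` is not zero. -/
def rMax (m : Multiset ℕ) : ℝ :=
  sSup {r | ∃ hr : 0 < r, ∃ c ∈ forestClasses m, pull (incl m.sum hr) c ≠ 0}

end

end Pool.Agent.Helper64.FC
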