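import Pool.Agent.Helper64.FC.Torus
import Pool.Agent.Helper64.FC.Forest

/-!
# Tori of configurations detect the class of a forest
-/

set_option autoImplicit false

namespace Pool.Agent.Helper64.FC

noncomputable section

theorem pull_cupList {X Y : Type} [TopologicalSpace X] [TopologicalSpace Y] (h : C(X, Y)) :
    ∀ (k : ℕ) (f : Fin k → Cochain 1 Y),
      pullCochain h k (cupList k f) = cupList k fun i => pullCochain h 1 (f i) := by
  intro k
  induction k with
  | zero => intro f; rfl
  | succ k ih =>
    intro f
    funext σ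
    have h1 := congrFun (ih fun i => f i.castSucc)
      (σ.comp (simpMap (frontV k 1)))
    simp only [pullCochain, LinearMap.coe_mk, AddHom.coe_mk] at h1
    simp only [pullCochain, LinearMap.coe_mk, AddHom.coe_mk, cupList]
    rw [cup_apply, cup_apply, ← h1]
    rfl

/-- If the pullback of a cocycle is not a coboundary then the class does not restrict to zero. -/
theorem pull_ne {X Y : Type} [TopologicalSpace X] [TopologicalSpace Y] (h : C(X, Y))
    {k : ℕ} (c : Cochain k Y) (hc0 : d Y (single k c) = 0)
    (hc : pullCochain h k c ∉ coboundaries k X) : pull h (cls (single k c) hc0) ≠ 0 := by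
  intro h0
  rw [pull_cls] at h0
  have h1 := cls_eq_zero h0
  rw [pullTot_single] at h1
  exact hc (mem_coboundaries h1)

open Complex in
/-- The main criterion: a torus of configurations which detects every edge of `G`. -/
theorem bridge {n : ℕ} {r : ℝ} (hr : 0 < r) (G : OrderedForest n)
    (X : (Fin n → ℝ) → ConfR n r) (hX : Continuous X)
    (hper : ∀ θ θ' : Fin n → ℝ, (∀ b, ∃ z : ℤ, θ' b = θ b + z) → X θ' = X θ)
    (hdir : ∀ θ : Fin n → ℝ, ∀ b ∈ G.children,
      0 < ((starRingEnd ℂ) (exp (2 * Real.pi * I * θ b)) *
        ((X θ).1 b - (X θ).1 (G.parent b))).re) :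
    pull (incl n hr) G.omega ≠ 0 := by
  classical
  apply pull_ne
  change pullCochain (incl n hr) G.children.card G.omegaCochain ∉ _
  rw [OrderedForest.omegaCochain, pull_cupList]
  set k := G.children.card with hk
  let ext : (Fin k → ℝ) → (Fin n → ℝ) := fun θ b => ∑ j, if G.top j = b then θ j else 0
  have hext : Continuous ext := by
    refine continuous_pi fun b => continuous_finsetSum _ fun j _ => ?_
    by_cases h : G.top j = b
    · simp only [h, if_true]; exact continuous_apply j
    · simp only [h, if_false]; exact continuous_const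
  have htopinj : Function.Injective G.top := (G.children.orderEmbOfFin rfl).injective
  have hext1 : ∀ θ j, ext θ (G.top j) = θ j := by
    intro θ j
    simp only [ext]
    rw [Finset.sum_eq_single j]
    · simp
    · intro i _ hi
      rw [if_neg fun e => hi (htopinj e)]
    · simp
  have hext2 : ∀ θ l b, ext (θ + Pi.single l 1) b = ext θ b + if G.top l = b then 1 else 0 := by
    intro θ l b
    simp only [ext, Pi.add_apply]
    have : ∀ j, (if G.top j = b then θ j + (Pi.single l 1 : Fin k → ℝ) j else 0) =
        (if G.top j = b then θ j else 0) + (if j = l then (if G.top l = b then 1 else 0) else 0) := by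
      intro j
      by_cases h : j = l
      · subst h
        by_cases h2 : G.top j = b <;> simp [h2]
      · rw [Pi.single_eq_of_ne h]
        simp [h]
    simp only [this, Finset.sum_add_distrib, Finset.sum_ite_eq', Finset.mem_univ, if_true]
  let Φ : C(Fin k → ℝ, ConfR n r) := ⟨X ∘ ext, hX.comp hext⟩
  have hΦper : ∀ θ l, Φ (θ + Pi.single l 1) = Φ θ := by
    intro θ l
    refine hper _ _ fun b => ⟨if G.top l = b then 1 else 0, ?_⟩
    rw [hext2]
    push_cast
    rfl
  -- the difference vectors
  let D : Fin k → (Fin k → ℝ) → ℂ := fun j θ =>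
    (Φ θ).1 (G.top j) - (Φ θ).1 (G.parent (G.top j))
  have hD : ∀ j, Continuous (D j) := by
    intro j
    have h1 : Continuous fun θ => (Φ θ).1 := continuous_subtype_val.comp Φ.continuous
    exact ((continuous_apply _).comp h1).sub ((continuous_apply _).comp h1)
  let W : Fin k → (Fin k → ℝ) → ℂ := fun j θ =>
    (starRingEnd ℂ) (exp (2 * Real.pi * I * θ j)) * D j θ
  have hW : ∀ j, Continuous (W j) := by
    intro j
    refine Continuous.mul ?_ (hD j)
    refine Complex.continuous_conj.comp (Complex.continuous_exp.comp ?_)
    exact continuous_const.mul (Complex.continuous_ofReal.comp (continuous_apply j))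
  have hWpos : ∀ j θ, 0 < (W j θ).re := by
    intro j θ
    have := hdir (ext θ) (G.top j) (G.top_mem j)
    rw [hext1] at this
    exact this
  have hnorm1 : ∀ x : ℝ, ‖exp (2 * Real.pi * I * x)‖ = 1 := by
    intro x
    have : (2 * Real.pi * I * x : ℂ) = ((2 * Real.pi * x : ℝ) : ℂ) * I := by push_cast; ring
    rw [this, Complex.norm_exp_ofReal_mul_I]
  have hDW : ∀ j θ, D j θ = exp (2 * Real.pi * I * θ j) * W j θ := by
    intro j θ
    simp only [W]
    rw [← mul_assoc, Complex.mul_conj, Complex.normSq_eq_norm_sq, hnorm1]
    simp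
  have hWnorm : ∀ j θ, ‖W j θ‖ = ‖D j θ‖ := by
    intro j θ
    simp only [W]
    rw [norm_mul, RCLike.norm_conj, hnorm1, one_mul]
  let φ : Fin k → (Fin k → ℝ) → ℝ := fun j θ => θ j + arg (W j θ) / (2 * Real.pi)
  have hφc : ∀ j, Continuous (φ j) := by
    intro j
    refine (continuous_apply j).add (Continuous.div_const ?_ _)
    rw [continuous_iff_continuousAt]
    intro θ
    exact (Complex.continuousAt_arg (Or.inl (hWpos j θ))).comp (hW j).continuousAt
  have hφang : ∀ j θ, D j θ = ‖D j θ‖ * exp (2 * Real.pi * I * φ j θ) := by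
    intro j θ
    have h1 : (2 * Real.pi * I * (φ j θ : ℂ) : ℂ) =
        2 * Real.pi * I * θ j + arg (W j θ) * I := by
      simp only [φ]
      have : (Real.pi : ℂ) ≠ 0 := by exact_mod_cast Real.pi_ne_zero
      push_cast
      field_simp
    have h2 : W j θ = ‖D j θ‖ * exp (arg (W j θ) * I) := by
      rw [← hWnorm, Complex.norm_mul_exp_arg_mul_I]
    rw [h1, Complex.exp_add]
    calc D j θ = exp (2 * Real.pi * I * θ j) * W j θ := hDW j θ
      _ = exp (2 * Real.pi * I * θ j) * (‖D j θ‖ * exp (arg (W j θ) * I)) := by rw [← h2]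
      _ = _ := by ring
  have hDne : ∀ j θ, D j θ ≠ 0 := by
    intro j θ h
    have := hWpos j θ
    simp only [W, h, mul_zero, Complex.zero_re, lt_irrefl] at this
  refine cupList_not_coboundary Φ hΦper _ φ ?_ ?_
  · intro j v
    change winding ((diffMap n (G.parent (G.top j)) (G.top j)).comp
      ((incl n hr).comp (Φ.comp (aff v)))) = _
    rw [winding_eq (φ := (⟨φ j, hφc j⟩ : C(Fin k → ℝ, ℝ)).comp (aff v))]
    · rw [ContinuousMap.comp_apply, ContinuousMap.comp_apply, aff_vertex, aff_vertex]
      rfl
    · intro t
      exact hDne j _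
    · intro t
      exact hφang j (aff v t)
  · intro j θ l
    have h1 : D j (θ + Pi.single l 1) = D j θ := by
      simp only [D, hΦper]
    have h2 : W j (θ + Pi.single l 1) = W j θ := by
      simp only [W, h1, Pi.add_apply]
      congr 2
      by_cases h : j = l
      · subst h
        rw [Pi.single_eq_same]
        have : (2 * Real.pi * I * ((θ j + 1 : ℝ) : ℂ) : ℂ) =
            2 * Real.pi * I * θ j + 2 * Real.pi * I := by push_cast; ring
        rw [this, Complex.exp_add, Complex.exp_two_pi_mul_I, mul_one]
      · rw [Pi.single_eq_of_ne h, add_zero]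
    simp only [φ, h2, Pi.add_apply]
    by_cases h : l = j
    · subst h
      rw [Pi.single_eq_same, if_pos rfl]
      ring
    · rw [Pi.single_eq_of_ne (fun e => h e.symm), if_neg h]
      ring

end

end Pool.Agent.Helper64.FC
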