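import Pool.Agent.Helper64.FC.Angle

set_option autoImplicit false

namespace Pool.Agent.Helper64.FC

noncomputable section

variable {X : Type} [TopologicalSpace X]

theorem simpMap_comp {k l m : ℕ} (u : Fin (k + 1) → Fin (l + 1)) (v : Fin (l + 1) → Fin (m + 1)) :
    (simpMap v).comp (simpMap u) = simpMap (v ∘ u) := by
  ext1 t
  exact (stdSimplex.map_comp_apply u v t)

theorem comp_simpMap {k l m : ℕ} (σ : C(Simp m, X)) (u : Fin (k + 1) → Fin (l + 1))
    (v : Fin (l + 1) → Fin (m + 1)) :
    (σ.comp (simpMap v)).comp (simpMap u) = σ.comp (simpMap (v ∘ u)) := by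
  rw [ContinuousMap.comp_assoc, simpMap_comp]

/-- the front `p`-face -/
abbrev frontV (p q : ℕ) : Fin (p + 1) → Fin (p + q + 1) := fun i => ⟨i, by omega⟩

/-- the back `q`-face -/
abbrev backV (p q : ℕ) : Fin (q + 1) → Fin (p + q + 1) := fun i => ⟨p + i, by omega⟩

theorem cup_apply {p q : ℕ} (f : Cochain p X) (g : Cochain q X) (σ : C(Simp (p + q), X)) :
    cup f g σ = f (σ.comp (simpMap (frontV p q))) * g (σ.comp (simpMap (backV p q))) := rfl

/-- Leibniz rule with a `1`-cochain. -/
theorem delta_cup_one {k : ℕ} (f : Cochain k X) (g : Cochain 1 X) (σ : C(Simp (k + 2), X)) :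
    delta (k + 1) X (cup f g) σ =
      cup (p := k + 1) (q := 1) (delta k X f) g σ +
      (-1) ^ k * cup (p := k) (q := 2) f (delta 1 X g) σ := by
  rw [cup_apply, cup_apply]
  simp only [delta, LinearMap.coe_mk, AddHom.coe_mk]
  rw [Fin.sum_univ_castSucc, Fin.sum_univ_castSucc]
  conv_rhs => rw [Fin.sum_univ_castSucc]
  have h1 : ∀ i : Fin (k + 1), cup f g (σ.comp (simpMap (i.castSucc.castSucc).succAbove)) =
      f ((σ.comp (simpMap (frontV (k + 1) 1))).comp (simpMap i.castSucc.succAbove)) *
        g (σ.comp (simpMap (backV (k + 1) 1))) := by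
    intro i
    rw [cup_apply, comp_simpMap, comp_simpMap, comp_simpMap]
    congr 4
    · funext j
      apply Fin.ext
      simp only [Function.comp_apply, Fin.succAbove, Fin.lt_def, Fin.val_castSucc]
      split_ifs <;> simp
    · funext j
      apply Fin.ext
      simp only [Function.comp_apply, Fin.succAbove, Fin.lt_def, Fin.val_castSucc]
      have := i.2
      split_ifs
      · omega
      · simp only [Fin.val_succ]; try omega
  have h2 : cup f g (σ.comp (simpMap ((Fin.last (k + 1)).castSucc).succAbove)) =
      f (σ.comp (simpMap (frontV k 2))) *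
        g ((σ.comp (simpMap (backV k 2))).comp (simpMap (1 : Fin 3).succAbove)) := by
    rw [cup_apply, comp_simpMap, comp_simpMap, comp_simpMap]
    congr 4
    · funext j
      apply Fin.ext
      simp only [Function.comp_apply, Fin.succAbove, Fin.lt_def, Fin.val_castSucc, Fin.val_last]
      have := j.2
      split_ifs <;> first | rfl | omega
    · funext j
      apply Fin.ext
      fin_cases j
      · simp [Fin.succAbove, Fin.lt_def]
      · simp [Fin.succAbove, Fin.lt_def]
  have h3 : cup f g (σ.comp (simpMap (Fin.last (k + 1 + 1)).succAbove)) =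
      f (σ.comp (simpMap (frontV k 2))) *
        g ((σ.comp (simpMap (backV k 2))).comp (simpMap (2 : Fin 3).succAbove)) := by
    rw [cup_apply, comp_simpMap, comp_simpMap, comp_simpMap]
    congr 4
    · funext j
      apply Fin.ext
      simp only [Function.comp_apply, Fin.succAbove_last, Fin.val_castSucc]
    · funext j
      apply Fin.ext
      fin_cases j
      · simp [Fin.succAbove, Fin.lt_def]
      · simp [Fin.succAbove, Fin.lt_def]
  have h4 : (σ.comp (simpMap (frontV (k + 1) 1))).comp (simpMap (Fin.last (k + 1)).succAbove) =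
      σ.comp (simpMap (frontV k 2)) := by
    rw [comp_simpMap]
    congr 2
    funext j
    apply Fin.ext
    simp only [Function.comp_apply, Fin.succAbove_last, Fin.val_castSucc]
  have h5 : (σ.comp (simpMap (backV k 2))).comp (simpMap (0 : Fin 3).succAbove) =
      σ.comp (simpMap (backV (k + 1) 1)) := by
    rw [comp_simpMap]
    congr 2
    funext j
    apply Fin.ext
    simp only [Function.comp_apply, Fin.succAbove_zero, Fin.val_succ]
    omega
  simp only [h1, h2, h3, h4]
  rw [Fin.sum_univ_three, h5]
  simp only [Fin.val_castSucc, Fin.val_last, Fin.val_zero, Fin.val_one, Fin.val_two]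
  rw [add_mul, Finset.sum_mul]
  simp only [mul_assoc]
  ring

theorem cupList_cocycle (k : ℕ) (f : Fin k → Cochain 1 X) (hf : ∀ i, f i ∈ cocycles 1 X) :
    cupList k f ∈ cocycles k X := by
  induction k with
  | zero =>
    rw [LinearMap.mem_ker]
    funext σ
    simp [delta, cupList, Fin.sum_univ_two]
  | succ k ih =>
    have h1 := ih (fun i => f i.castSucc) fun i => hf _
    have h2 := hf (Fin.last k)
    rw [LinearMap.mem_ker] at h1 h2 ⊢
    funext σ
    rw [cupList, delta_cup_one, h1, h2]
    simp [cup]

end

end Pool.Agent.Helper64.FC
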