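import Mathlib

/-!
# Singular cohomology, configuration spaces of disks, and forest classes

Definitions for problem `MP_075f54_gt`: real singular cohomology (cochains, coboundary, cup
product), configurations of points in the open unit disk and of hard disks in the closed unit disk,
the classes `ω_G` of ordered forests, their shapes, and the radius `r_max` of a shape.
-/

set_option autoImplicit false

namespace Pool.Agent.Helper64.FC

noncomputable section

/-! ## Real singular cohomology -/

/-- The standard geometric `k`-simplex, with vertices `0, …, k`. -/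
abbrev Simp (k : ℕ) : Type := stdSimplex ℝ (Fin (k + 1))

/-- The topology of the standard simplex, as a subset of `ℝ ^ (k + 1)`. -/
instance topSimp (k : ℕ) : TopologicalSpace (Simp k) := instTopologicalSpaceSubtype

/-- The affine map of standard simplices which is given on the vertices by `u`. -/
def simpMap {k l : ℕ} (u : Fin (k + 1) → Fin (l + 1)) : C(Simp k, Simp l) :=
  ⟨stdSimplex.map u, stdSimplex.continuous_map u⟩

/-- Real singular `k`-cochains of `X`: all real functions on the set of singular `k`-simplices. -/
abbrev Cochain (k : ℕ) (X : Type) [TopologicalSpace X] : Type := C(Simp k, X) → ℝ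

/-- Real singular cochains of `X`: families of a `k`-cochain for each degree `k`. -/
def Tot (X : Type) [TopologicalSpace X] : Type := ∀ k : ℕ, Cochain k X

instance groupTot (X : Type) [TopologicalSpace X] : AddCommGroup (Tot X) := Pi.addCommGroup

instance moduleTot (X : Type) [TopologicalSpace X] : Module ℝ (Tot X) := Pi.module _ _ _

/-- The coboundary of a family of singular cochains: it is zero in degree `0` and
`(δ f) (σ) = ∑ i, (-1) ^ i f (σ restricted to the i-th face)` for a simplex `σ` of positive
dimension. -/
def coboundary {X : Type} [TopologicalSpace X] (f : Tot X) : Tot X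
  | 0 => 0
  | k + 1 => fun σ => ∑ i : Fin (k + 2), (-1 : ℝ) ^ (i : ℕ) * f k (σ.comp (simpMap i.succAbove))

/-- The coboundary as a linear map. -/
def d (X : Type) [TopologicalSpace X] : Tot X →ₗ[ℝ] Tot X where
  toFun := coboundary
  map_add' f g := by
    funext k
    cases k with
    | zero => exact (add_zero _).symm
    | succ k =>
      funext σ
      change ∑ i, _ * (f k _ + g k _) = (∑ i, _ * f k _) + ∑ i, _ * g k _
      simp only [mul_add, Finset.sum_add_distrib]
  map_smul' c f := by
    funext k
    cases k with
    | zero =>
      funext σ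
      exact (mul_zero c).symm
    | succ k =>
      funext σ
      change ∑ i, _ * (c * f k _) = c * ∑ i, _ * f k _
      rw [Finset.mul_sum]
      exact Finset.sum_congr rfl fun i _ => by ring

/-- Real singular cohomology `H^*(X; ℝ)` (the product over all degrees): cocycles modulo
coboundaries. -/
def Hstar (X : Type) [TopologicalSpace X] : Type :=
  LinearMap.ker (d X) ⧸ (LinearMap.range (d X)).submoduleOf (LinearMap.ker (d X))

instance groupHstar (X : Type) [TopologicalSpace X] : AddCommGroup (Hstar X) :=
  Submodule.Quotient.addCommGroup _

instance moduleHstar (X : Type) [TopologicalSpace X] : Module ℝ (Hstar X) :=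
  Submodule.Quotient.module _

/-- The family which is `f` in degree `k` and zero in the other degrees. -/
def single {X : Type} [TopologicalSpace X] (k : ℕ) (f : Cochain k X) : Tot X := Pi.single k f

/-- The cohomology class of a cocycle. -/
def cls {X : Type} [TopologicalSpace X] (f : Tot X) (hf : d X f = 0) : Hstar X :=
  Submodule.Quotient.mk (⟨f, hf⟩ : LinearMap.ker (d X))

/-- Pullback of cochains along a continuous map. -/
def pullTot {X Y : Type} [TopologicalSpace X] [TopologicalSpace Y] (h : C(X, Y)) :
    Tot Y →ₗ[ℝ] Tot X where
  toFun f := fun _ σ => f _ (h.comp σ)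
  map_add' _ _ := rfl
  map_smul' _ _ := rfl

theorem d_pullTot {X Y : Type} [TopologicalSpace X] [TopologicalSpace Y] (h : C(X, Y))
    (f : Tot Y) : d X (pullTot h f) = pullTot h (d Y f) := by
  funext k
  cases k with
  | zero => rfl
  | succ k => rfl

theorem pull_ker {X Y : Type} [TopologicalSpace X] [TopologicalSpace Y] (h : C(X, Y))
    (f : Tot Y) (hf : f ∈ LinearMap.ker (d Y)) : pullTot h f ∈ LinearMap.ker (d X) := by
  rw [LinearMap.mem_ker] at hf ⊢
  rw [d_pullTot, hf, map_zero]

/-- Pullback of cocycles. -/
def pullKer {X Y : Type} [TopologicalSpace X] [TopologicalSpace Y] (h : C(X, Y)) :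
    LinearMap.ker (d Y) →ₗ[ℝ] LinearMap.ker (d X) :=
  (pullTot h).restrict (pull_ker h)

theorem pull_range {X Y : Type} [TopologicalSpace X] [TopologicalSpace Y] (h : C(X, Y)) :
    (LinearMap.range (d Y)).submoduleOf (LinearMap.ker (d Y)) ≤
      ((LinearMap.range (d X)).submoduleOf (LinearMap.ker (d X))).comap (pullKer h) := by
  rintro c ⟨b, hb⟩
  exact ⟨pullTot h b, by rw [d_pullTot, hb]; rfl⟩

/-- The map `h^* : H^*(Y) → H^*(X)` induced on cohomology by a continuous map `h : X → Y`. -/
def pull {X Y : Type} [TopologicalSpace X] [TopologicalSpace Y] (h : C(X, Y)) :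
    Hstar Y →ₗ[ℝ] Hstar X :=
  Submodule.mapQ _ _ (pullKer h) (pull_range h)

/-- The cup product of singular cochains: `(f ∪ g) (σ)` is the product of `f` on the front
`p`-face of `σ` and `g` on the back `q`-face of `σ`. -/
def cup {X : Type} [TopologicalSpace X] {p q : ℕ} (f : Cochain p X) (g : Cochain q X) :
    Cochain (p + q) X :=
  fun σ => f (σ.comp (simpMap fun i : Fin (p + 1) => (⟨i, by omega⟩ : Fin (p + q + 1)))) *
    g (σ.comp (simpMap fun i : Fin (q + 1) => (⟨p + i, by omega⟩ : Fin (p + q + 1))))

/-- The iterated cup product `f₀ ∪ f₁ ∪ … ∪ f_(k-1)` of `k` cochains of degree `1` (the empty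
product is the constant `0`-cochain `1`). -/
def cupList {X : Type} [TopologicalSpace X] : (k : ℕ) → (Fin k → Cochain 1 X) → Cochain k X
  | 0, _ => fun _ => 1
  | k + 1, f => cup (cupList k fun i => f i.castSucc) (f (Fin.last k))

/-! ## The angle cochain -/

/-- `φ` measures the angle of `f`, in full turns: `f = |f| exp (2 π i φ)`. -/
def IsAngle {A : Type} [TopologicalSpace A] (f : A → ℂ) (φ : C(A, ℝ)) : Prop :=
  ∀ t, f t = ‖f t‖ * Complex.exp (2 * Real.pi * Complex.I * φ t)

open Classical in
/-- The variation of the angle, in full turns, along a path (a singular `1`-simplex) in the plane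
which avoids the origin; in other words the integral of `dθ / 2π` along the path. -/
def winding (f : C(Simp 1, ℂ)) : ℝ :=
  if h : ∃ φ : C(Simp 1, ℝ), IsAngle f φ then
    h.choose (stdSimplex.vertex 1) - h.choose (stdSimplex.vertex 0) else 0

/-! ## Configuration spaces -/

/-- `Conf_n`: configurations of `n` distinct labelled points in the open unit disk of `ℂ = ℝ²`. -/
def Conf (n : ℕ) : Type :=
  {x : Fin n → ℂ // (∀ a, ‖x a‖ < 1) ∧ ∀ a b, a ≠ b → x a ≠ x b}

instance topConf (n : ℕ) : TopologicalSpace (Conf n) := instTopologicalSpaceSubtype

/-- `Conf_{n,r}`: centres of `n` labelled disks of radius `r` in the closed unit disk with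
disjoint interiors. -/
def ConfR (n : ℕ) (r : ℝ) : Type :=
  {x : Fin n → ℂ // (∀ a, ‖x a‖ ≤ 1 - r) ∧ ∀ a b, a ≠ b → 2 * r ≤ ‖x a - x b‖}

instance topConfR (n : ℕ) (r : ℝ) : TopologicalSpace (ConfR n r) := instTopologicalSpaceSubtype

/-- The inclusion `i_{n,r} : Conf_{n,r} → Conf_n`. -/
def incl (n : ℕ) {r : ℝ} (hr : 0 < r) : C(ConfR n r, Conf n) where
  toFun x := ⟨x.1, fun a => (x.2.1 a).trans_lt (by linarith), fun a b hab h => by
    have := x.2.2 a b hab
    rw [h, sub_self, norm_zero] at this
    linarith⟩
  continuous_toFun := Continuous.subtype_mk continuous_subtype_val _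

/-- The vector from the point `a` to the point `b` of a configuration. -/
def diffMap (n : ℕ) (a b : Fin n) : C(Conf n, ℂ) where
  toFun x := x.1 b - x.1 a
  continuous_toFun := ((continuous_apply b).comp continuous_subtype_val).sub
    ((continuous_apply a).comp continuous_subtype_val)

/-- The singular cochain `ω_ab` on `Conf_n`: the pullback of the normalised angle form
`dθ / 2π` under `x ↦ (x_b - x_a) / |x_b - x_a|`. -/
def omegaAB (n : ℕ) (a b : Fin n) : Cochain 1 (Conf n) :=
  fun σ => winding ((diffMap n a b).comp σ)

/-! ## Ordered forests -/

/-- An ordered forest on `{0, …, n - 1}`: a forest in which every vertex has at most one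
neighbour with a smaller label. -/
structure OrderedForest (n : ℕ) where
  /-- the underlying graph -/
  graph : SimpleGraph (Fin n)
  /-- the graph is a forest -/
  acyclic : graph.IsAcyclic
  /-- every vertex has at most one smaller neighbour -/
  unique : ∀ a a' b, a < b → a' < b → graph.Adj a b → graph.Adj a' b → a = a'

namespace OrderedForest

variable {n : ℕ} (G : OrderedForest n)

open Classical in
/-- The vertices which have a smaller neighbour; they correspond to the edges of the forest. -/
def children : Finset (Fin n) := Finset.univ.filter fun b => ∃ a, a < b ∧ G.graph.Adj a b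

open Classical in
/-- The smaller neighbour of a vertex (the vertex itself, if there is none). -/
def parent (b : Fin n) : Fin n := if h : ∃ a, a < b ∧ G.graph.Adj a b then h.choose else b

/-- The larger endpoint of the `i`-th edge; the edges are ordered by their larger endpoint. -/
def top (i : Fin G.children.card) : Fin n := G.children.orderEmbOfFin rfl i

/-- The cochain `ω_G`: the cup product of the `ω_ab` over the edges `{a < b}` of `G`. -/
def omegaCochain : Cochain G.children.card (Conf n) :=
  cupList G.children.card fun i => omegaAB n (G.parent (G.top i)) (G.top i)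

/-- The shape of an ordered forest: the multiset of the sizes of those components which have at
least two vertices. -/
def shape : Multiset ℕ :=
  ((Set.toFinite (Set.univ : Set G.graph.ConnectedComponent)).toFinset.val.map
    fun c => c.supp.ncard).filter (2 ≤ ·)

end OrderedForest

end

end Pool.Agent.Helper64.FC
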