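import Pool.Agent.Helper64.FC.Defs

/-!
# Cochains of a fixed degree
-/

set_option autoImplicit false

namespace Pool.Agent.Helper64.FC

noncomputable section

/-- The coboundary in degree `k`. -/
def delta (k : ℕ) (X : Type) [TopologicalSpace X] : Cochain k X →ₗ[ℝ] Cochain (k + 1) X where
  toFun f σ := ∑ i : Fin (k + 2), (-1 : ℝ) ^ (i : ℕ) * f (σ.comp (simpMap i.succAbove))
  map_add' f g := by
    funext σ
    simp only [Pi.add_apply, mul_add, Finset.sum_add_distrib]
  map_smul' c f := by
    funext σ
    simp only [Pi.smul_apply, smul_eq_mul, RingHom.id_apply, Finset.mul_sum]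
    exact Finset.sum_congr rfl fun i _ => by ring

/-- The cocycles of degree `k`. -/
abbrev cocycles (k : ℕ) (X : Type) [TopologicalSpace X] : Submodule ℝ (Cochain k X) :=
  LinearMap.ker (delta k X)

/-- The coboundaries of degree `k`. -/
def coboundaries : (k : ℕ) → (X : Type) → [TopologicalSpace X] → Submodule ℝ (Cochain k X)
  | 0, _, _ => ⊥
  | k + 1, X, _ => LinearMap.range (delta k X)

/-- Pullback of cochains along a continuous map. -/
def pullCochain {X Y : Type} [TopologicalSpace X] [TopologicalSpace Y] (f : C(X, Y)) (k : ℕ) :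
    Cochain k Y →ₗ[ℝ] Cochain k X where
  toFun c σ := c (f.comp σ)
  map_add' _ _ := rfl
  map_smul' _ _ := rfl

variable {X : Type} [TopologicalSpace X]

theorem d_single {k : ℕ} {f : Cochain k X} (hf : f ∈ cocycles k X) : d X (single k f) = 0 := by
  rw [LinearMap.mem_ker] at hf
  funext n
  cases n with
  | zero => rfl
  | succ m =>
    by_cases h : m = k
    · subst h
      funext σ
      have h1 := congrFun hf σ
      change ∑ i : Fin (m + 2), (-1 : ℝ) ^ (i : ℕ) *
        (Pi.single m f : ∀ k, Cochain k X) m (σ.comp (simpMap i.succAbove)) = 0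
      rw [Pi.single_eq_same]
      exact h1
    · funext σ
      change ∑ i : Fin (m + 2), (-1 : ℝ) ^ (i : ℕ) *
        (Pi.single k f : ∀ k, Cochain k X) m (σ.comp (simpMap i.succAbove)) = 0
      rw [Pi.single_eq_of_ne h]
      simp

theorem single_same (k : ℕ) (f : Cochain k X) : single k f k = f :=
  Pi.single_eq_same (M := fun k => Cochain k X) k f

theorem single_of_ne {k n : ℕ} (f : Cochain k X) (hn : n ≠ k) : single k f n = 0 :=
  Pi.single_eq_of_ne (M := fun k => Cochain k X) hn f

theorem mem_coboundaries {k : ℕ} {f : Cochain k X}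
    (hf : single k f ∈ LinearMap.range (d X)) : f ∈ coboundaries k X := by
  obtain ⟨g, hg⟩ := hf
  have h1 := congrFun hg k
  rw [single_same] at h1
  cases k with
  | zero =>
    rw [coboundaries, Submodule.mem_bot, ← h1]
    rfl
  | succ k => exact ⟨g k, h1⟩

theorem pullTot_single {Y : Type} [TopologicalSpace Y] (h : C(X, Y)) {k : ℕ} (f : Cochain k Y) :
    pullTot h (single k f) = single k (pullCochain h k f) := by
  funext n
  by_cases hn : n = k
  · subst hn
    rw [single_same]
    funext σ
    change single n f n (h.comp σ) = _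
    rw [single_same]
    rfl
  · rw [single_of_ne _ hn]
    funext σ
    change single k f n (h.comp σ) = _
    rw [single_of_ne _ hn]
    rfl

theorem pull_cls {Y : Type} [TopologicalSpace Y] (h : C(X, Y)) (f : Tot Y) (hf : d Y f = 0) :
    pull h (cls f hf) = cls (pullTot h f) (by rw [d_pullTot, hf, map_zero]) := rfl

theorem cls_eq_zero {f : Tot X} {hf : d X f = 0} (h : cls f hf = 0) :
    f ∈ LinearMap.range (d X) := by
  have h1 : (Submodule.Quotient.mk (⟨f, hf⟩ : LinearMap.ker (d X)) :
    LinearMap.ker (d X) ⧸ (LinearMap.range (d X)).submoduleOf (LinearMap.ker (d X))) = 0 := h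
  rw [Submodule.Quotient.mk_eq_zero] at h1
  exact h1

end

end Pool.Agent.Helper64.FC
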