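import Pool.Agent.Helper64.FC.Pack

set_option autoImplicit false

namespace Pool.Agent.Helper64.FC

/-- Asymptotically, disks of large radius `ρ` carry tori with a distinguished cluster of size
almost `ρ` and sum of squares of sizes almost `s ρ²`. -/
def AS (s : ℝ) : Prop := ∀ ε > 0, ∃ ρ0 > 0, ∀ ρ ≥ ρ0, ∃ a S : ℕ, Rz ρ a S ∧
  (1 - ε) * ρ ≤ a ∧ (s - ε) * ρ ^ 2 ≤ S

theorem Rz.nat (n : ℕ) : Rz ((n : ℝ) + 1) (n + 1) ((n + 1) ^ 2) := by
  induction n with
  | zero => simpa using Rz.one
  | succ n ih =>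
    have h := Rz.node (J := Bool) (j0 := false) (j1 := true) (by decide)
      (c := fun b => if b then ((n : ℂ) + 1) else -1) (ρ := fun b => if b then 1 else (n : ℝ) + 1)
      (P := (n : ℝ) + 2) (D := (n : ℝ) + 2) (a := fun b => if b then 1 else n + 1)
      (s := fun b => if b then 1 else (n + 1) ^ 2) ?_ ?_ ?_ ?_ (by positivity) ?_
    · simp only [Bool.false_eq_true, if_false, if_true, Fintype.sum_bool] at h
      have e1 : (((n + 1 : ℕ) : ℝ) + 1) = (n : ℝ) + 2 := by push_cast; ring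
      have e2 : (n + 1 + 1) ^ 2 = 1 + (n + 1) ^ 2 + 2 * (n + 1) * 1 := by ring
      rw [e1, e2]
      exact h
    · intro b
      cases b
      · simpa using ih
      · simpa using Rz.one
    · intro b h1 h2
      cases b
      · exact absurd rfl h1
      · exact absurd rfl h2
    · intro i j hij
      have e3 : ‖(n : ℂ) + 1 + 1‖ = (n : ℝ) + 2 := by
        have : ((n : ℂ) + 1 + 1) = (((n : ℝ) + 2 : ℝ) : ℂ) := by push_cast; ring
        rw [this, Complex.norm_real, Real.norm_of_nonneg (by positivity)]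
      have e4 : ‖(-1 : ℂ) - (n + 1)‖ = (n : ℝ) + 2 := by
        rw [← e3, ← norm_neg]
        congr 1; ring
      cases i <;> cases j
      · exact absurd rfl hij
      · simp only [Bool.false_eq_true, if_false, if_true]
        rw [e4]
        linarith
      · simp only [Bool.false_eq_true, if_false, if_true, sub_neg_eq_add]
        rw [e3]
        linarith
      · exact absurd rfl hij
    · intro j
      cases j
      · simp only [Bool.false_eq_true, if_false, norm_neg, norm_one]
        linarith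
      · simp only [if_true]
        have : ‖(n : ℂ) + 1‖ = (n : ℝ) + 1 := by
          have : ((n : ℂ) + 1) = (((n : ℝ) + 1 : ℝ) : ℂ) := by push_cast; ring
          rw [this, Complex.norm_real, Real.norm_of_nonneg (by positivity)]
        rw [this]
        linarith
    · simp only [Bool.false_eq_true, if_false, if_true]
      push_cast
      ring

theorem AS_one : AS 1 := by
  intro ε hε
  refine ⟨2 / ε + 1, by positivity, fun ρ hρ => ?_⟩
  have h1 : 1 ≤ ρ := by
    have : 0 < 2 / ε := by positivity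
    linarith
  have h2 : 2 ≤ ε * ρ := by
    have : 2 / ε ≤ ρ := by linarith
    rwa [div_le_iff₀ hε, mul_comm] at this
  obtain ⟨n, hn⟩ : ∃ n, ⌊ρ⌋₊ = n + 1 :=
    Nat.exists_eq_succ_of_ne_zero (Nat.floor_pos.2 h1).ne'
  have h3 : ((n + 1 : ℕ) : ℝ) ≤ ρ := by rw [← hn]; exact Nat.floor_le (by linarith)
  have h4 : ρ < ((n + 1 : ℕ) : ℝ) + 1 := by rw [← hn]; exact Nat.lt_floor_add_one ρ
  refine ⟨n + 1, (n + 1) ^ 2, (Rz.nat n).mono (by push_cast at h3; exact h3), ?_, ?_⟩
  · nlinarith
  · push_cast at h3 h4 ⊢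
    have h5 : 0 ≤ ρ - 1 := by linarith
    have h6 : (ρ - 1) ^ 2 ≤ ((n : ℝ) + 1) ^ 2 := by
      apply pow_le_pow_left₀ h5
      linarith
    nlinarith

theorem AS_step {s : ℝ} (hs : 1 ≤ s) (h : AS s) : AS (s + 1 / 2) := by
  intro ε hε
  set ε' : ℝ := min ε 1 / (s + 3) with hε'
  have hs3 : 0 < s + 3 := by linarith
  have hε'0 : 0 < ε' := by positivity
  have hm1 : min ε 1 ≤ 1 := min_le_right _ _
  have hm2 : min ε 1 ≤ ε := min_le_left _ _
  have hε's : ε' * (s + 3) = min ε 1 := by
    rw [hε']; field_simp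
  have hε'1 : ε' ≤ 1 / 4 := by
    rw [hε', div_le_iff₀ hs3]
    linarith
  obtain ⟨J, hJ, hdec, c, e, he0, hin, hl, hr, hd, hsum⟩ := packing hε'0
  obtain ⟨ρ1, hρ1, hA⟩ := h ε' hε'0
  set T : ℝ := ∑ j, (ρ1 + 4) / e j with hT
  have hTnn : 0 ≤ T := Finset.sum_nonneg fun j _ => by have := he0 j; positivity
  have hTj : ∀ j, (ρ1 + 4) / e j ≤ T := fun j =>
    Finset.single_le_sum (f := fun j => (ρ1 + 4) / e j)
      (fun j _ => by have := he0 j; positivity) (Finset.mem_univ j)
  refine ⟨2 * ρ1 + T + 4, by linarith, fun ρ hρ => ?_⟩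
  have hρ0 : 0 < ρ := by linarith
  have hej : ∀ j, ρ1 + 4 ≤ ρ * e j := by
    intro j
    have h1 : (ρ1 + 4) / e j ≤ ρ := by linarith [hTj j]
    rwa [div_le_iff₀ (he0 j)] at h1
  have hhalf : ρ1 ≤ ρ / 2 := by linarith
  obtain ⟨a, S, hR, ha, hS⟩ := hA (ρ / 2) hhalf
  have hAj : ∀ j, ∃ a S : ℕ, Rz (ρ * e j) a S ∧ (1 - ε') * (ρ * e j) ≤ a ∧
      (s - ε') * (ρ * e j) ^ 2 ≤ S := fun j => hA (ρ * e j) (by linarith [hej j])
  choose aj Sj hRj haj hSj using hAj
  have hnode := Rz.node (J := Bool ⊕ J) (j0 := .inl false) (j1 := .inl true) (by simp)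
    (c := Sum.elim (fun b => if b then ((ρ / 2 : ℝ) : ℂ) else -((ρ / 2 : ℝ) : ℂ))
      (fun j => (ρ : ℂ) * c j))
    (ρ := Sum.elim (fun _ => ρ / 2) (fun j => ρ * e j)) (P := ρ) (D := ρ)
    (a := Sum.elim (fun _ => a) aj) (s := Sum.elim (fun _ => S) Sj) ?_ ?_ ?_ ?_ hρ0.le ?_
  · refine ⟨_, _, hnode, ?_, ?_⟩
    · simp only [Sum.elim_inl]
      push_cast
      have hε'2 : ε' ≤ ε := by nlinarith
      have : (1 - ε) * ρ ≤ (1 - ε') * ρ := mul_le_mul_of_nonneg_right (by linarith) hρ0.le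
      linarith
    · simp only [Sum.elim_inl, Fintype.sum_sum_type, Sum.elim_inr, Fintype.sum_bool]
      push_cast
      have h1 : (s - ε') * ρ ^ 2 * ∑ j, e j ^ 2 ≤ ∑ j, (Sj j : ℝ) := by
        rw [Finset.mul_sum]
        refine Finset.sum_le_sum fun j _ => ?_
        have := hSj j
        calc (s - ε') * ρ ^ 2 * e j ^ 2 = (s - ε') * (ρ * e j) ^ 2 := by ring
          _ ≤ _ := this
      have h2 : (s - ε') * ρ ^ 2 * (1 / 2 - ε') ≤ (s - ε') * ρ ^ 2 * ∑ j, e j ^ 2 := by
        apply mul_le_mul_of_nonneg_left hsum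
        have : 0 ≤ s - ε' := by linarith
        positivity
      have h3 : ((1 - ε') * (ρ / 2)) ^ 2 ≤ (a : ℝ) * a := by
        rw [pow_two]
        have : 0 ≤ (1 - ε') * (ρ / 2) := by
          have : 0 ≤ 1 - ε' := by linarith
          positivity
        exact mul_le_mul ha ha this (by positivity)
      have h4 : (s + 1 / 2 - ε) * ρ ^ 2 ≤ 2 * ((s - ε') * (ρ / 2) ^ 2) +
          (s - ε') * ρ ^ 2 * (1 / 2 - ε') + 2 * ((1 - ε') * (ρ / 2)) ^ 2 := by
        have h5 : s + 1 / 2 - ε ≤ (s - ε') * (1 / 2) + (s - ε') * (1 / 2 - ε') +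
            (1 - ε') ^ 2 / 2 := by nlinarith
        calc (s + 1 / 2 - ε) * ρ ^ 2 ≤ ((s - ε') * (1 / 2) + (s - ε') * (1 / 2 - ε') +
            (1 - ε') ^ 2 / 2) * ρ ^ 2 := mul_le_mul_of_nonneg_right h5 (by positivity)
          _ = _ := by ring
      nlinarith
  · rintro (b | j)
    · exact hR
    · exact hRj j
  · rintro (b | j) h1 h2
    · cases b
      · exact absurd rfl h1
      · exact absurd rfl h2
    · simp only [Sum.elim_inr]
      have h3 := haj j
      have h4 := hej j
      have : (2 : ℝ) ≤ aj j := by nlinarith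
      exact_mod_cast this
  · have hn : ∀ z : ℂ, ∀ x : ℝ, x ≤ ‖z‖ → ρ * x ≤ ‖(ρ : ℂ) * z‖ := by
      intro z x hx
      rw [norm_mul, Complex.norm_real, Real.norm_of_nonneg hρ0.le]
      exact mul_le_mul_of_nonneg_left hx hρ0.le
    rintro (b | i) (b' | j) hij
    · have hbb : ρ ≤ ‖(ρ : ℂ)‖ := by
        rw [Complex.norm_real, Real.norm_of_nonneg hρ0.le]
      cases b <;> cases b'
      · exact absurd rfl hij
      · simp only [Sum.elim_inl, Bool.false_eq_true, if_false, if_true]
        have : -((ρ / 2 : ℝ) : ℂ) - ((ρ / 2 : ℝ) : ℂ) = -(ρ : ℂ) := by push_cast; ring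
        rw [this, norm_neg]
        linarith
      · simp only [Sum.elim_inl, Bool.false_eq_true, if_false, if_true]
        have : ((ρ / 2 : ℝ) : ℂ) - -((ρ / 2 : ℝ) : ℂ) = (ρ : ℂ) := by push_cast; ring
        rw [this]
        linarith
      · exact absurd rfl hij
    · cases b
      · simp only [Sum.elim_inl, Sum.elim_inr, Bool.false_eq_true, if_false]
        have h1 := hn _ _ (hr j)
        have : -((ρ / 2 : ℝ) : ℂ) - (ρ : ℂ) * c j = -((ρ : ℂ) * (c j + 1 / 2)) := by
          push_cast; ring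
        rw [this, norm_neg]
        linarith
      · simp only [Sum.elim_inl, Sum.elim_inr, if_true]
        have h1 := hn _ _ (hl j)
        have : ((ρ / 2 : ℝ) : ℂ) - (ρ : ℂ) * c j = -((ρ : ℂ) * (c j - 1 / 2)) := by
          push_cast; ring
        rw [this, norm_neg]
        linarith
    · cases b'
      · simp only [Sum.elim_inl, Sum.elim_inr, Bool.false_eq_true, if_false]
        have h1 := hn _ _ (hr i)
        have : (ρ : ℂ) * c i - -((ρ / 2 : ℝ) : ℂ) = ((ρ : ℂ) * (c i + 1 / 2)) := by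
          push_cast; ring
        rw [this]
        linarith
      · simp only [Sum.elim_inl, Sum.elim_inr, if_true]
        have h1 := hn _ _ (hl i)
        have : (ρ : ℂ) * c i - ((ρ / 2 : ℝ) : ℂ) = ((ρ : ℂ) * (c i - 1 / 2)) := by
          push_cast; ring
        rw [this]
        linarith
    · simp only [Sum.elim_inr]
      have h1 := hn _ _ (hd i j fun e => hij (by rw [e]))
      rw [← mul_sub]
      linarith
  · rintro (b | j)
    · have hb : ‖((ρ / 2 : ℝ) : ℂ)‖ = ρ / 2 := by
        rw [Complex.norm_real, Real.norm_of_nonneg (by positivity)]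
      cases b
      · simp only [Sum.elim_inl, Bool.false_eq_true, if_false, norm_neg, hb]
        linarith
      · simp only [Sum.elim_inl, if_true, hb]
        linarith
    · simp only [Sum.elim_inr]
      rw [norm_mul, Complex.norm_real, Real.norm_of_nonneg hρ0.le, ← mul_add]
      have := mul_le_mul_of_nonneg_left (hin j) hρ0.le
      linarith
  · simp only [Sum.elim_inl, Bool.false_eq_true, if_false, if_true]
    push_cast
    ring

theorem AS_nat (k : ℕ) : AS (1 + (k : ℝ) / 2) := by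
  induction k with
  | zero => simpa using AS_one
  | succ k ih =>
    have := AS_step (s := 1 + (k : ℝ) / 2) (by
      have : (0 : ℝ) ≤ (k : ℝ) / 2 := by positivity
      linarith) ih
    have e : 1 + ((k + 1 : ℕ) : ℝ) / 2 = 1 + (k : ℝ) / 2 + 1 / 2 := by push_cast; ring
    rw [e]
    exact this

/-- For every `B` there is a torus of configurations of disks of radius `1` in a disk of radius
`ρ ≥ 4`, all of whose clusters have at least `2` elements, with sum of squares of sizes larger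
than `B ρ²`. -/
theorem exists_large (B : ℝ) : ∃ (ρ : ℝ) (a S : ℕ), 4 ≤ ρ ∧ Rz ρ a S ∧ 2 ≤ a ∧
    B * ρ ^ 2 < S := by
  obtain ⟨k, hk⟩ := exists_nat_gt (2 * B)
  obtain ⟨ρ0, hρ0, h⟩ := AS_nat k (1 / 2) (by norm_num)
  obtain ⟨a, S, hR, ha, hS⟩ := h (max ρ0 4) (le_max_left _ _)
  have h4 : (4 : ℝ) ≤ max ρ0 4 := le_max_right _ _
  refine ⟨max ρ0 4, a, S, h4, hR, ?_, ?_⟩
  · have : (2 : ℝ) ≤ a := by linarith
    exact_mod_cast this
  · refine lt_of_lt_of_le ?_ hS
    apply mul_lt_mul_of_pos_right _ (by positivity)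
    linarith

end Pool.Agent.Helper64.FC
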