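import Pool.Agent.Helper64.FC.Block
import Pool.Agent.Helper64.FC.Induct

/-!
# Assembly: large radii at which forest classes survive
-/

set_option autoImplicit false

namespace Pool.Agent.Helper64.FC

noncomputable section

/-- Relabelling the clusters. -/
theorem IsReal.relabel {ι ι' : Type} (e : ι ≃ ι') {m : ι → ℕ} {ρ : ℝ}
    {X : (ι × ℕ → ℝ) → (ι × ℕ → ℂ)} (h : IsReal m ρ X) :
    IsReal (fun i => m (e.symm i)) ρ
      (fun θ p => X (fun q => θ (e q.1, q.2)) (e.symm p.1, p.2)) := by
  refine ⟨?_, ?_, ?_, ?_, ?_⟩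
  · refine continuous_pi fun p => ?_
    refine (continuous_apply _).comp (h.cont.comp ?_)
    exact continuous_pi fun q => continuous_apply _
  · intro θ θ' hθ
    have := h.per (fun q => θ (e q.1, q.2)) (fun q => θ' (e q.1, q.2)) fun p => hθ _
    funext p
    simp only [this]
  · intro θ p hp
    exact h.bound _ (e.symm p.1, p.2) hp
  · intro θ p q hp hq hne
    refine h.sep _ (e.symm p.1, p.2) (e.symm q.1, q.2) hp hq fun hh => hne ?_
    rw [Prod.ext_iff] at hh
    exact Prod.ext (e.symm.injective hh.1) hh.2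
  · intro θ i l hl
    have := h.dir (fun q => θ (e q.1, q.2)) (e.symm i) l hl
    simp only [Equiv.apply_symm_apply] at this
    exact this

/-- A torus of disk configurations with clusters `M` in the disk of radius `ρ` gives that `ω_G`
survives at the radius `1 / ρ`, where `G` is the forest of paths of sizes `M`. -/
theorem survive {K : ℕ} (M : Fin K → ℕ) {ρ : ℝ} (hρ : 0 < ρ)
    {X : (Fin K × ℕ → ℝ) → (Fin K × ℕ → ℂ)} (h : IsReal M ρ X) (hr : 0 < 1 / ρ) :
    pull (incl (∑ i, M i) hr) (blockForest M).omega ≠ 0 := by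
  classical
  -- extension of the angles
  let ext : (Fin (∑ i, M i) → ℝ) → (Fin K × ℕ → ℝ) := fun θ p =>
    if hp : p.2 < M p.1 then θ (lab M p.1 ⟨p.2, hp⟩) else 0
  have hext : Continuous ext := by
    refine continuous_pi fun p => ?_
    by_cases hp : p.2 < M p.1
    · simp only [ext, dif_pos hp]
      exact continuous_apply _
    · simp only [ext, dif_neg hp]
      exact continuous_const
  let idx : Fin (∑ i, M i) → Fin K × ℕ := fun b => (blk M b, (pos M b : ℕ))
  have hidx : ∀ b, (idx b).2 < M (idx b).1 := fun b => (pos M b).2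
  have hidx_inj : Function.Injective idx := by
    intro b b' hb
    have h1 : first M (blk M b) = first M (blk M b') := congrArg (first M) (congrArg Prod.fst hb)
    have h2 : (pos M b : ℕ) = pos M b' := congrArg Prod.snd hb
    have h3 := val_eq M b
    have h4 := val_eq M b'
    apply Fin.ext
    omega
  have hidx_lab : ∀ i l (hl : l < M i), idx (lab M i ⟨l, hl⟩) = (i, l) := by
    intro i l hl
    have h1 := blk_lab M i ⟨l, hl⟩
    have h0 : first M (blk M (lab M i ⟨l, hl⟩)) = first M i := congrArg (first M) h1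
    have h2 := val_eq M (lab M i ⟨l, hl⟩)
    have h3 := lab_val M i ⟨l, hl⟩
    refine Prod.ext h1 ?_
    change (pos M (lab M i ⟨l, hl⟩) : ℕ) = l
    simp only at h3
    omega
  let Y : (Fin (∑ i, M i) → ℝ) → ConfR (∑ i, M i) (1 / ρ) := fun θ =>
    ⟨fun b => (1 / ρ : ℝ) * X (ext θ) (idx b), by
      intro a
      rw [norm_mul, Complex.norm_real, Real.norm_of_nonneg hr.le]
      have := h.bound (ext θ) (idx a) (hidx a)
      calc 1 / ρ * ‖X (ext θ) (idx a)‖ ≤ 1 / ρ * (ρ - 1) := mul_le_mul_of_nonneg_left this hr.le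
        _ = 1 - 1 / ρ := by field_simp, by
      intro a b hab
      rw [← mul_sub, norm_mul, Complex.norm_real, Real.norm_of_nonneg hr.le, mul_comm 2]
      exact mul_le_mul_of_nonneg_left
        (h.sep (ext θ) _ _ (hidx a) (hidx b) fun e => hab (hidx_inj e)) hr.le⟩
  refine bridge hr (blockForest M) Y ?_ ?_ ?_
  · refine Continuous.subtype_mk ?_ _
    refine continuous_pi fun b => ?_
    exact continuous_const.mul ((continuous_apply _).comp (h.cont.comp hext))
  · intro θ θ' hθ
    have : X (ext θ') = X (ext θ) := by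
      refine h.per _ _ fun p => ?_
      by_cases hp : p.2 < M p.1
      · simp only [ext, dif_pos hp]
        exact hθ _
      · simp only [ext, dif_neg hp]
        exact ⟨0, by simp⟩
    apply Subtype.ext
    funext b
    simp only [Y, this]
  · intro θ b hb
    obtain ⟨i, l, hl, h1, h2⟩ := parent_block M hb
    have h3 := h.dir (ext θ) i l hl
    have h4 : ext θ (i, l + 1) = θ b := by
      simp only [ext, dif_pos hl, h1]
    rw [h4] at h3
    have h5 : (Y θ).1 b - (Y θ).1 ((blockForest M).parent b) =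
        (1 / ρ : ℝ) * (X (ext θ) (i, l + 1) - X (ext θ) (i, l)) := by
      simp only [Y, h2]
      rw [h1, hidx_lab, hidx_lab]
      ring
    rw [h5]
    have h6 : (starRingEnd ℂ) (Complex.exp (2 * Real.pi * Complex.I * θ b)) *
        (((1 / ρ : ℝ) : ℂ) * (X (ext θ) (i, l + 1) - X (ext θ) (i, l))) =
        ((1 / ρ : ℝ) : ℂ) * ((starRingEnd ℂ) (turn (θ b)) *
          (X (ext θ) (i, l + 1) - X (ext θ) (i, l))) := by
      rw [turn]
      ring
    rw [h6, Complex.re_ofReal_mul]
    exact mul_pos hr h3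

/-- The set of radii in the definition of `r_max`. -/
def radii (m : Multiset ℕ) : Set ℝ :=
  {r | ∃ hr : 0 < r, ∃ c ∈ forestClasses m, pull (incl m.sum hr) c ≠ 0}

theorem rMax_eq (m : Multiset ℕ) : rMax m = sSup (radii m) := rfl

theorem radii_le {m : Multiset ℕ} (hm : 0 < m.sum) {r : ℝ} (hr : r ∈ radii m) : r ≤ 1 := by
  by_contra hlt
  push Not at hlt
  obtain ⟨h0, c, _, hc⟩ := hr
  apply hc
  have hempty : IsEmpty (ConfR m.sum r) := ⟨fun x => by
    have h1 := x.2.1 ⟨0, hm⟩
    have h2 := norm_nonneg (x.1 ⟨0, hm⟩)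
    linarith⟩
  have hC : ∀ k, IsEmpty C(Simp k, ConfR m.sum r) := fun k =>
    ⟨fun σ => hempty.false (σ (stdSimplex.vertex 0))⟩
  have hco : ∀ k, Subsingleton (Cochain k (ConfR m.sum r)) := fun k => by
    have := hC k
    exact inferInstance
  have hT : Subsingleton (Tot (ConfR m.sum r)) := ⟨fun f g => funext fun k => (hco k).elim _ _⟩
  have : Subsingleton (Hstar (ConfR m.sum r)) :=
    inferInstanceAs (Subsingleton (LinearMap.ker (d (ConfR m.sum r)) ⧸
      (LinearMap.range (d (ConfR m.sum r))).submoduleOf (LinearMap.ker (d (ConfR m.sum r)))))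
  exact Subsingleton.elim _ _

theorem bddAbove_radii {m : Multiset ℕ} (hm : 0 < m.sum) : BddAbove (radii m) :=
  ⟨1, fun _ hr => radii_le hm hr⟩

/-- For every `C` there is a multiset with `r_max` more than `C` divided by the square root of the
sum of the squares. -/
theorem main (C : ℝ) : ∃ m : Multiset ℕ, m ≠ 0 ∧ (∀ i ∈ m, 2 ≤ i) ∧ BddAbove (radii m) ∧
    C / √((m.map fun i : ℕ => (i : ℝ) ^ 2).sum) < rMax m := by
  classical
  obtain ⟨ρ, a, S, hρ4, hRz, ha, hS⟩ := exists_large (C ^ 2)
  obtain ⟨κ, hκ, m, hm, _, hs, X, hX⟩ := hRz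
  have hρ : 0 < ρ := by linarith
  have hr : 0 < 1 / ρ := by positivity
  set e := Fintype.equivFin (Option κ) with he
  set M : Fin (Fintype.card (Option κ)) → ℕ := fun i => sz a m (e.symm i) with hM
  have hM2 : ∀ i, 2 ≤ M i := by
    intro i
    simp only [hM]
    cases e.symm i with
    | none => exact ha
    | some x => exact hm x
  have hreal := hX.relabel e
  have hsurv := survive M hρ hreal hr
  have hcard : 0 < Fintype.card (Option κ) := Fintype.card_pos
  let i0 : Fin (Fintype.card (Option κ)) := ⟨0, hcard⟩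
  have hmem : M i0 ∈ (Finset.univ.val.map M) := Multiset.mem_map_of_mem M (Finset.mem_univ i0)
  have hsum : 0 < (Finset.univ.val.map M).sum := by
    have := Multiset.single_le_sum (s := Finset.univ.val.map M) (fun _ _ => Nat.zero_le _) _ hmem
    have := hM2 i0
    omega
  have hsq : ((Finset.univ.val.map M).map fun i : ℕ => (i : ℝ) ^ 2).sum = S := by
    rw [Multiset.map_map]
    change (∑ i, ((M i : ℕ) : ℝ) ^ 2) = S
    have h1 : (∑ i, M i ^ 2) = ∑ o : Option κ, sz a m o ^ 2 :=
      e.symm.sum_comp fun o => sz a m o ^ 2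
    have h2 : (∑ i, M i ^ 2) = S := by
      rw [h1, Fintype.sum_option, hs]
      rfl
    rw [← h2]
    push_cast
    rfl
  have hmemr : 1 / ρ ∈ radii (Finset.univ.val.map M) :=
    ⟨hr, (blockForest M).omega,
      Submodule.subset_span ⟨blockForest M, shape_block M hM2, rfl⟩, hsurv⟩
  refine ⟨Finset.univ.val.map M, fun h0 => by rw [h0] at hmem; simp at hmem, ?_,
    bddAbove_radii hsum, ?_⟩
  · intro x hx
    obtain ⟨i, _, rfl⟩ := Multiset.mem_map.1 hx
    exact hM2 i
  · rw [hsq]
    have hSpos : (0 : ℝ) < S := lt_of_le_of_lt (by positivity) hS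
    have hsqrt : 0 < √(S : ℝ) := Real.sqrt_pos.2 hSpos
    refine lt_of_lt_of_le ?_ (le_csSup (bddAbove_radii hsum) hmemr)
    rw [div_lt_div_iff₀ hsqrt hρ, one_mul]
    refine lt_of_le_of_lt (le_abs_self _) ?_
    rw [← Real.sqrt_sq_eq_abs]
    refine Real.sqrt_lt_sqrt (sq_nonneg _) ?_
    rw [mul_pow]
    exact hS

end

end Pool.Agent.Helper64.FC
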