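import Pool.Agent.Helper64.FC.Realize

set_option autoImplicit false

namespace Pool.Agent.Helper64.FC

open MeasureTheory Metric Set

/-- Almost all of the unit disk outside the two disks of radius `1/2` can be filled by finitely
many disjoint disks. -/
theorem packing {ε : ℝ} (hε : 0 < ε) : ∃ (J : Type) (_ : Fintype J) (_ : DecidableEq J)
    (c : J → ℂ) (e : J → ℝ), (∀ j, 0 < e j) ∧ (∀ j, ‖c j‖ + e j ≤ 1) ∧
      (∀ j, 1 / 2 + e j ≤ ‖c j - 1 / 2‖) ∧ (∀ j, 1 / 2 + e j ≤ ‖c j + 1 / 2‖) ∧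
      (∀ i j, i ≠ j → e i + e j ≤ ‖c i - c j‖) ∧ 1 / 2 - ε ≤ ∑ j, e j ^ 2 := by
  classical
  set L : Set ℂ := ball 0 1 \ (closedBall (1 / 2) (1 / 2) ∪ closedBall (-(1 / 2)) (1 / 2)) with hL
  let R : ℂ → ℝ := fun x => min (1 - ‖x‖) (min (‖x - 1 / 2‖ - 1 / 2) (‖x + 1 / 2‖ - 1 / 2))
  have hR : ∀ x ∈ L, 0 < R x := by
    rintro x ⟨h1, h2⟩
    simp only [mem_union, mem_closedBall, dist_eq_norm, not_or, not_le, mem_ball, sub_zero,
      sub_neg_eq_add] at h1 h2
    refine lt_min (by linarith) (lt_min (by linarith [h2.1]) (by linarith [h2.2]))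
  obtain ⟨t, r, htc, hts, hr, hcov, hdisj⟩ :=
    Besicovitch.exists_disjoint_closedBall_covering_ae (volume : Measure ℂ) (fun _ => univ) L
      (fun x _ δ hδ => ⟨δ / 2, mem_univ _, by constructor <;> linarith⟩) R hR
  have hpi : (NNReal.pi : ENNReal) = ENNReal.ofReal Real.pi := by
    rw [← NNReal.coe_real_pi, ENNReal.ofReal_coe_nnreal]
  -- the volume of `L`
  have hvL : ENNReal.ofReal (Real.pi / 2) ≤ volume L := by
    have h1 : volume (ball (0 : ℂ) 1) = ENNReal.ofReal Real.pi := by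
      rw [Complex.volume_ball, hpi]
      simp
    have h2 : ∀ x : ℂ, volume (closedBall x (1 / 2)) = ENNReal.ofReal (Real.pi / 4) := by
      intro x
      rw [Complex.volume_closedBall]
      have : ENNReal.ofReal (Real.pi / 4) =
          ENNReal.ofReal (1 / 2) ^ 2 * ENNReal.ofReal Real.pi := by
        rw [← ENNReal.ofReal_pow (by norm_num), ← ENNReal.ofReal_mul (by norm_num)]
        congr 1; ring
      rw [this, hpi]
    have h3 : volume (ball (0 : ℂ) 1) - (volume (closedBall (1 / 2 : ℂ) (1 / 2)) +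
        volume (closedBall (-(1 / 2) : ℂ) (1 / 2))) ≤ volume L := by
      refine le_trans ?_ (le_measure_sdiff)
      exact tsub_le_tsub_left (measure_union_le _ _) _
    rw [h1, h2, h2, ← ENNReal.ofReal_add (by positivity) (by positivity),
      ← ENNReal.ofReal_sub _ (by positivity)] at h3
    refine le_trans (ENNReal.ofReal_le_ofReal ?_) h3
    linarith
  have hball : ∀ x : ℂ, ∀ ρ : ℝ, 0 ≤ ρ → volume (closedBall x ρ) =
      ENNReal.ofReal (Real.pi * ρ ^ 2) := by
    intro x ρ hρ
    rw [Complex.volume_closedBall, mul_comm Real.pi, ENNReal.ofReal_mul (by positivity),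
      ENNReal.ofReal_pow hρ, hpi]
  have h4 : volume L ≤ ∑' x : t, ENNReal.ofReal (Real.pi * r x ^ 2) := by
    have h5 : volume L ≤ volume (⋃ x ∈ t, closedBall x (r x)) := by
      refine (measure_mono (t := (⋃ x ∈ t, closedBall x (r x)) ∪
        (L \ ⋃ x ∈ t, closedBall x (r x))) ?_).trans ?_
      · intro x hx
        by_cases h : x ∈ ⋃ x ∈ t, closedBall x (r x)
        · exact Or.inl h
        · exact Or.inr ⟨hx, h⟩
      · refine (measure_union_le _ _).trans ?_
        rw [hcov, add_zero]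
    refine h5.trans ?_
    refine (measure_biUnion_le volume htc _).trans (le_of_eq ?_)
    refine tsum_congr fun x => ?_
    exact hball x _ (hr x x.2).2.1.le
  have h6 : ENNReal.ofReal (Real.pi / 2 - Real.pi * ε) <
      ∑' x : t, ENNReal.ofReal (Real.pi * r x ^ 2) := by
    refine lt_of_lt_of_le ?_ (hvL.trans h4)
    rw [ENNReal.ofReal_lt_ofReal_iff (by positivity)]
    have := Real.pi_pos
    nlinarith
  rw [ENNReal.tsum_eq_iSup_sum, lt_iSup_iff] at h6
  obtain ⟨F, hF⟩ := h6
  refine ⟨F, inferInstance, inferInstance, fun j => (j.1 : ℂ), fun j => r j.1, ?_, ?_, ?_, ?_, ?_, ?_⟩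
  · intro j
    exact (hr _ j.1.2).2.1
  · intro j
    have h := (hr _ j.1.2).2.2
    have := h.trans_le (min_le_left _ _)
    linarith
  · intro j
    have h := (hr _ j.1.2).2.2
    have := h.trans_le ((min_le_right _ _).trans (min_le_left _ _))
    linarith
  · intro j
    have h := (hr _ j.1.2).2.2
    have := h.trans_le ((min_le_right _ _).trans (min_le_right _ _))
    linarith
  · intro i j hij
    have hne : (i.1 : ℂ) ≠ j.1 := fun h => hij (Subtype.ext (Subtype.ext h))
    have h := hdisj i.1.2 j.1.2 hne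
    rw [Function.onFun, disjoint_closedBall_closedBall_iff (hr _ i.1.2).2.1.le
      (hr _ j.1.2).2.1.le, dist_eq_norm] at h
    exact h.le
  · have h7 : ∑ x ∈ F, ENNReal.ofReal (Real.pi * r x ^ 2) =
        ENNReal.ofReal (Real.pi * ∑ j : F, r j.1 ^ 2) := by
      rw [← ENNReal.ofReal_sum_of_nonneg (fun _ _ => by positivity), ← Finset.mul_sum]
      congr 2
      exact (Finset.sum_coe_sort F fun x => r x ^ 2).symm
    rw [h7] at hF
    have h8 : Real.pi / 2 - Real.pi * ε < Real.pi * ∑ j : F, r j.1 ^ 2 := by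
      by_contra hcon
      exact absurd hF (not_lt.2 (ENNReal.ofReal_le_ofReal (not_lt.1 hcon)))
    have h9 := Real.pi_pos
    have h10 : Real.pi * (1 / 2 - ε) < Real.pi * ∑ j : F, r j.1 ^ 2 := by linarith
    exact (lt_of_mul_lt_mul_left h10 h9.le).le

end Pool.Agent.Helper64.FC
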