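import Pool.Agent.Helper64.FC.Cup

set_option autoImplicit false

namespace Pool.Agent.Helper64.FC

noncomputable section

open Equiv

/-- The affine singular simplex with given vertices. -/
def aff {N l : ℕ} (v : Fin (l + 1) → Fin N → ℝ) : C(Simp l, Fin N → ℝ) where
  toFun t := ∑ i, t.1 i • v i
  continuous_toFun := by
    refine continuous_finsetSum _ fun i _ => ?_
    exact ((continuous_apply i).comp continuous_subtype_val).smul continuous_const

theorem aff_comp {N k l : ℕ} (v : Fin (l + 1) → Fin N → ℝ) (u : Fin (k + 1) → Fin (l + 1)) :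
    (aff v).comp (simpMap u) = aff (v ∘ u) := by
  ext1 t
  change ∑ i, (stdSimplex.map u t).1 i • v i = ∑ i, t.1 i • v (u i)
  have h : ∀ i, (stdSimplex.map u t).1 i = ∑ m with u m = i, t.1 m := fun i =>
    FunOnFinite.linearMap_apply_apply ℝ ℝ u t.1 i
  simp only [h, Finset.sum_smul]
  rw [← Finset.sum_fiberwise Finset.univ u (fun m => t.1 m • v (u m))]
  refine Finset.sum_congr rfl fun i _ => Finset.sum_congr rfl fun m hm => ?_
  rw [(Finset.mem_filter.1 hm).2]

theorem aff_vertex {N l : ℕ} (v : Fin (l + 1) → Fin N → ℝ) (i : Fin (l + 1)) :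
    aff v (stdSimplex.vertex i) = v i := by
  change ∑ j, (Pi.single i 1 : Fin (l + 1) → ℝ) j • v j = v i
  rw [Finset.sum_eq_single i]
  · simp
  · intro b _ hb
    rw [Pi.single_eq_of_ne hb, zero_smul]
  · simp

theorem aff_add {N l : ℕ} (v : Fin (l + 1) → Fin N → ℝ) (w : Fin N → ℝ) (t : Simp l) :
    aff (fun i => v i + w) t = aff v t + w := by
  change ∑ i, t.1 i • (v i + w) = ∑ i, t.1 i • v i + w
  simp only [smul_add, Finset.sum_add_distrib]
  rw [← Finset.sum_smul, t.2.2, one_smul]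

/-- The vertices of the path simplex of a permutation. -/
def pv {k : ℕ} (σ : Perm (Fin k)) (m : Fin (k + 1)) : Fin k → ℝ :=
  fun j => if (σ.symm j : ℕ) < m then 1 else 0

theorem pv_succ {k : ℕ} (σ : Perm (Fin k)) (j : Fin k) :
    pv σ j.succ = pv σ j.castSucc + Pi.single (σ j) 1 := by
  funext i
  simp only [pv, Pi.add_apply, Fin.val_succ, Fin.val_castSucc]
  by_cases h : i = σ j
  · subst h
    simp
  · rw [Pi.single_eq_of_ne h]
    have h' : σ.symm i ≠ j := fun e => h (by rw [← e, apply_symm_apply])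
    have h'' : (σ.symm i : ℕ) ≠ j := fun e => h' (Fin.ext e)
    simp only [add_zero]
    congr 1
    apply propext
    omega

variable {Y : Type} [TopologicalSpace Y]

theorem comp_aff_comp {N k l : ℕ} (Φ : C(Fin N → ℝ, Y)) (v : Fin (l + 1) → Fin N → ℝ)
    (u : Fin (k + 1) → Fin (l + 1)) :
    (Φ.comp (aff v)).comp (simpMap u) = Φ.comp (aff (v ∘ u)) := by
  rw [ContinuousMap.comp_assoc, aff_comp]

theorem sum_inner {k : ℕ} (Φ : C(Fin (k + 1) → ℝ, Y)) (g : Cochain k Y) (i : Fin k) :
    ∑ σ : Perm (Fin (k + 1)), ((Perm.sign σ : ℤ) : ℝ) *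
      g (Φ.comp (aff (pv σ ∘ i.succ.castSucc.succAbove))) = 0 := by
  set s : Perm (Fin (k + 1)) := swap i.castSucc i.succ with hs
  have hne : i.castSucc ≠ i.succ := (Fin.castSucc_lt_succ (i := i)).ne
  have key : ∀ σ : Perm (Fin (k + 1)),
      pv (σ * s) ∘ i.succ.castSucc.succAbove = pv σ ∘ i.succ.castSucc.succAbove := by
    intro σ
    funext m j
    simp only [Function.comp_apply, pv]
    have h1 : (σ * s).symm j = s (σ.symm j) := by
      change (σ * s)⁻¹ j = s (σ⁻¹ j)
      rw [mul_inv_rev, hs, swap_inv, Perm.mul_apply]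
    rw [h1]
    set a := σ.symm j
    set M := i.succ.castSucc.succAbove m with hM
    have hMne : (M : ℕ) ≠ i + 1 := by
      intro e
      have : M = i.succ.castSucc := Fin.ext (by simpa using e)
      exact Fin.succAbove_ne _ _ this
    congr 1
    apply propext
    by_cases ha : a = i.castSucc
    · rw [ha, hs, swap_apply_left]
      simp only [Fin.val_succ, Fin.val_castSucc]
      omega
    · by_cases ha' : a = i.succ
      · rw [ha', hs, swap_apply_right]
        simp only [Fin.val_succ, Fin.val_castSucc]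
        omega
      · rw [hs, swap_apply_of_ne_of_ne ha ha']
  have h2 : ∑ σ : Perm (Fin (k + 1)), ((Perm.sign σ : ℤ) : ℝ) *
      g (Φ.comp (aff (pv σ ∘ i.succ.castSucc.succAbove))) =
      - ∑ σ : Perm (Fin (k + 1)), ((Perm.sign σ : ℤ) : ℝ) *
      g (Φ.comp (aff (pv σ ∘ i.succ.castSucc.succAbove))) := by
    conv_lhs => rw [← Equiv.sum_comp (Equiv.mulRight s)]
    rw [← Finset.sum_neg_distrib]
    refine Finset.sum_congr rfl fun σ _ => ?_
    simp only [Equiv.coe_mulRight]
    rw [key σ, Perm.sign_mul, hs, Perm.sign_swap hne]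
    push_cast
    ring
  linarith

theorem sum_outer {k : ℕ} (Φ : C(Fin (k + 1) → ℝ, Y))
    (hper : ∀ θ l, Φ (θ + Pi.single l 1) = Φ θ) (g : Cochain k Y) :
    ∑ σ : Perm (Fin (k + 1)), ((Perm.sign σ : ℤ) : ℝ) *
      g (Φ.comp (aff (pv σ ∘ (0 : Fin (k + 2)).succAbove))) =
    (-1) ^ k * ∑ σ : Perm (Fin (k + 1)), ((Perm.sign σ : ℤ) : ℝ) *
      g (Φ.comp (aff (pv σ ∘ (Fin.last (k + 1)).succAbove))) := by
  have key : ∀ σ : Perm (Fin (k + 1)),
      Φ.comp (aff (pv σ ∘ (0 : Fin (k + 2)).succAbove)) =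
      Φ.comp (aff (pv (σ * finRotate (k + 1)) ∘ (Fin.last (k + 1)).succAbove)) := by
    intro σ
    have h1 : (pv σ ∘ (0 : Fin (k + 2)).succAbove) =
        fun m => (pv (σ * finRotate (k + 1)) ∘ (Fin.last (k + 1)).succAbove) m +
          Pi.single (σ 0) 1 := by
      funext m j
      simp only [Function.comp_apply, Fin.succAbove_zero, Fin.succAbove_last, Pi.add_apply, pv,
        Fin.val_succ, Fin.val_castSucc]
      have h2 : (σ * finRotate (k + 1)).symm j = (finRotate (k + 1)).symm (σ.symm j) := by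
        change (σ * finRotate (k + 1))⁻¹ j = (finRotate (k + 1))⁻¹ (σ⁻¹ j)
        rw [mul_inv_rev, Perm.mul_apply]
      rw [h2]
      obtain ⟨a, ha⟩ : ∃ a, finRotate (k + 1) a = σ.symm j := (finRotate (k + 1)).surjective _
      rw [← ha, Equiv.symm_apply_apply]
      have hj : j = σ (finRotate (k + 1) a) := by rw [ha, apply_symm_apply]
      rcases Fin.eq_castSucc_or_eq_last a with ⟨b, rfl⟩ | rfl
      · -- a = castSucc b
        have hb : finRotate (k + 1) b.castSucc = b.succ := by
          cases k with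
          | zero => exact b.elim0
          | succ k =>
            apply Fin.ext
            rw [coe_finRotate_of_ne_last]
            · simp
            · exact (Fin.castSucc_lt_last b).ne
        rw [hb] at hj ⊢
        have hne : j ≠ σ 0 := by
          rw [hj]
          intro e
          exact Fin.succ_ne_zero b (σ.injective e)
        rw [Pi.single_eq_of_ne hne]
        simp only [Fin.val_succ, Fin.val_castSucc, add_zero]
        congr 1
        apply propext
        omega
      · have hb : finRotate (k + 1) (Fin.last k) = 0 := finRotate_last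
        rw [hb] at hj ⊢
        rw [hj, Pi.single_eq_same]
        have : ¬ ((Fin.last k : Fin (k + 1)) : ℕ) < (m : ℕ) := by
          have := m.2
          simp only [Fin.val_last]
          omega
        rw [if_neg this]
        simp
    rw [h1]
    ext1 t
    rw [ContinuousMap.comp_apply, ContinuousMap.comp_apply, aff_add, hper]
  simp only [key]
  rw [← Equiv.sum_comp (Equiv.mulRight (finRotate (k + 1))) (fun σ : Perm (Fin (k + 1)) =>
    ((Perm.sign σ : ℤ) : ℝ) * g (Φ.comp (aff (pv σ ∘ (Fin.last (k + 1)).succAbove))))]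
  rw [Finset.mul_sum]
  refine Finset.sum_congr rfl fun σ _ => ?_
  simp only [Equiv.coe_mulRight]
  rw [Perm.sign_mul, sign_finRotate]
  push_cast
  have : ((-1 : ℝ) ^ k) * (-1) ^ k = 1 := by rw [← mul_pow]; simp
  linear_combination (-1) * (((Perm.sign σ : ℤ) : ℝ) *
    g (Φ.comp (aff (pv (σ * finRotate (k + 1)) ∘ (Fin.last (k + 1)).succAbove)))) * this

/-- A coboundary vanishes on the fundamental cycle of the torus. -/
theorem sum_delta {k : ℕ} (Φ : C(Fin (k + 1) → ℝ, Y))
    (hper : ∀ θ l, Φ (θ + Pi.single l 1) = Φ θ) (g : Cochain k Y) :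
    ∑ σ : Perm (Fin (k + 1)), ((Perm.sign σ : ℤ) : ℝ) *
      delta k Y g (Φ.comp (aff (pv σ))) = 0 := by
  have h1 : ∀ σ : Perm (Fin (k + 1)), delta k Y g (Φ.comp (aff (pv σ))) =
      ∑ i : Fin (k + 2), (-1 : ℝ) ^ (i : ℕ) * g (Φ.comp (aff (pv σ ∘ i.succAbove))) := by
    intro σ
    simp only [delta, LinearMap.coe_mk, AddHom.coe_mk, comp_aff_comp]
  simp only [h1, Finset.mul_sum]
  rw [Finset.sum_comm]
  have h2 : ∀ i : Fin (k + 2), ∑ σ : Perm (Fin (k + 1)), ((Perm.sign σ : ℤ) : ℝ) *
      ((-1 : ℝ) ^ (i : ℕ) * g (Φ.comp (aff (pv σ ∘ i.succAbove)))) =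
      (-1 : ℝ) ^ (i : ℕ) * ∑ σ : Perm (Fin (k + 1)), ((Perm.sign σ : ℤ) : ℝ) *
       g (Φ.comp (aff (pv σ ∘ i.succAbove))) := by
    intro i
    rw [Finset.mul_sum]
    exact Finset.sum_congr rfl fun σ _ => by ring
  simp only [h2]
  rw [Fin.sum_univ_castSucc, Fin.sum_univ_succ]
  have h3 : ∑ i : Fin k, (-1 : ℝ) ^ ((i.succ.castSucc : Fin (k + 2)) : ℕ) *
      ∑ σ : Perm (Fin (k + 1)), ((Perm.sign σ : ℤ) : ℝ) *
       g (Φ.comp (aff (pv σ ∘ (i.succ.castSucc).succAbove))) = 0 :=
    Finset.sum_eq_zero fun i _ => by rw [sum_inner, mul_zero]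
  rw [h3, Fin.castSucc_zero, sum_outer Φ hper g]
  simp only [Fin.val_zero, Fin.val_last]
  ring

theorem cupList_aff {N : ℕ} (Φ : C(Fin N → ℝ, Y)) :
    ∀ (l : ℕ) (f : Fin l → Cochain 1 Y) (φ : Fin l → (Fin N → ℝ) → ℝ),
    (∀ j (v : Fin 2 → Fin N → ℝ), f j (Φ.comp (aff v)) = φ j (v 1) - φ j (v 0)) →
    ∀ v : Fin (l + 1) → Fin N → ℝ, cupList l f (Φ.comp (aff v)) =
      ∏ j, (φ j (v j.succ) - φ j (v j.castSucc)) := by
  intro l
  induction l with
  | zero =>
    intro f φ _ v
    simp [cupList]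
  | succ l ih =>
    intro f φ h v
    rw [cupList, cup_apply, comp_aff_comp, comp_aff_comp, h,
      ih (fun i => f i.castSucc) (fun i => φ i.castSucc) (fun j => h j.castSucc),
      Fin.prod_univ_castSucc]
    rfl

/-- The iterated cup product of `k` cochains which restrict to the coordinate classes on a
`k`-torus is not a coboundary. -/
theorem cupList_not_coboundary {k : ℕ} (Φ : C(Fin k → ℝ, Y))
    (hper : ∀ θ l, Φ (θ + Pi.single l 1) = Φ θ) (f : Fin k → Cochain 1 Y)
    (φ : Fin k → (Fin k → ℝ) → ℝ)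
    (hf : ∀ j (v : Fin 2 → Fin k → ℝ), f j (Φ.comp (aff v)) = φ j (v 1) - φ j (v 0))
    (hφ : ∀ j θ l, φ j (θ + Pi.single l 1) = φ j θ + (if l = j then 1 else 0)) :
    cupList k f ∉ coboundaries k Y := by
  intro hmem
  have h1 : ∀ σ : Perm (Fin k), cupList k f (Φ.comp (aff (pv σ))) =
      ∏ j, (if σ j = j then (1 : ℝ) else 0) := by
    intro σ
    rw [cupList_aff Φ k f φ hf]
    refine Finset.prod_congr rfl fun j _ => ?_
    rw [pv_succ, hφ, add_sub_cancel_left]
  have h2 : ∑ σ : Perm (Fin k), ((Perm.sign σ : ℤ) : ℝ) *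
      cupList k f (Φ.comp (aff (pv σ))) = 1 := by
    rw [Finset.sum_eq_single 1]
    · rw [h1]; simp
    · intro σ _ hσ
      rw [h1]
      obtain ⟨j, hj⟩ : ∃ j, σ j ≠ j := by
        by_contra hcon
        push Not at hcon
        exact hσ (Equiv.ext hcon)
      rw [Finset.prod_eq_zero (Finset.mem_univ j) (if_neg hj), mul_zero]
    · simp
  cases k with
  | zero =>
    rw [coboundaries, Submodule.mem_bot] at hmem
    rw [hmem] at h2
    simp at h2
  | succ k =>
    obtain ⟨g, hg⟩ := hmem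
    rw [← hg, sum_delta Φ hper g] at h2
    exact zero_ne_one h2

end

end Pool.Agent.Helper64.FC
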